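import Mathlib
import Pool.Agent.Y63.NV.Stm

/-!
# Navarro's conjecture for `p`-group extensions: tools for the two bases of the Brauer quotient
-/

open scoped Classical

noncomputable section

namespace Pool.Agent.Y77.NV

open Pool.Agent.Y63.NV

/-- A sum over a finite set with an action of a `p`-group, of an invariant function which vanishes
at the fixed points, is zero in characteristic `p`. -/
theorem psum {F : Type} [Field F] {p : ℕ} [Fact p.Prime] [CharP F p] {R : Type} [Group R]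
    [Finite R] (hR : IsPGroup p R) {X : Type} [Fintype X] (act : R → X → X)
    (h1 : ∀ x, act 1 x = x) (h2 : ∀ r s x, act (r * s) x = act r (act s x)) (f : X → F)
    (hf : ∀ r x, f (act r x) = f x) (h0 : ∀ x, (∀ r, act r x = x) → f x = 0) :
    ∑ x, f x = 0 := by
  have key : ∀ c : F, c ≠ 0 → ((Finset.univ.filter (fun x => f x = c)).card : F) = 0 := by
    intro c hc
    let inst : MulAction R {x : X // f x = c} :=
      { smul := fun r x => ⟨act r x.1, by rw [hf, x.2]⟩
        one_smul := fun x => Subtype.ext (h1 x.1)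
        mul_smul := fun r s x => Subtype.ext (h2 r s x.1) }
    have h3 := @IsPGroup.card_modEq_card_fixedPoints p R _ hR _ {x : X // f x = c} inst _
    have h4 : Nat.card (MulAction.fixedPoints R {x : X // f x = c}) = 0 := by
      rw [Nat.card_eq_zero]
      left
      refine ⟨fun y => ?_⟩
      have h5 : ∀ r, act r y.1.1 = y.1.1 := fun r => congrArg Subtype.val (y.2 r)
      exact hc (y.1.2.symm.trans (h0 _ h5))
    rw [h4] at h3
    have h6 : p ∣ Nat.card {x : X // f x = c} := (Nat.modEq_zero_iff_dvd).1 h3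
    rw [Nat.card_eq_fintype_card, Fintype.card_subtype] at h6
    exact (CharP.cast_eq_zero_iff F p _).2 h6
  calc ∑ x, f x = ∑ c ∈ Finset.univ.image f, ∑ x with f x = c, f x :=
        (Finset.sum_fiberwise_of_maps_to (fun x _ => Finset.mem_image_of_mem f (Finset.mem_univ x))
          f).symm
    _ = ∑ c ∈ Finset.univ.image f, (0 : F) := by
        refine Finset.sum_congr rfl fun c _ => ?_
        rw [Finset.sum_congr rfl (g := fun _ => c) (fun x hx => (Finset.mem_filter.1 hx).2),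
          Finset.sum_const, nsmul_eq_mul]
        by_cases hc : c = 0
        · rw [hc, mul_zero]
        · rw [key c hc, zero_mul]
    _ = 0 := Finset.sum_const_zero

/-- If `C` normalises `N` and `C N / N` is a `p`-group then `C` is contained in `N R` for a
`p`-subgroup `R` of `C`. -/
theorem supl {Γ : Type} [Group Γ] [Finite Γ] (p : ℕ) [Fact p.Prime] (C N : Subgroup Γ)
    (hn : ∀ h ∈ C, ∀ n ∈ N, h * n * h⁻¹ ∈ N) (hp : ∀ h ∈ C, ∃ k : ℕ, h ^ p ^ k ∈ N) :
    ∃ R : Subgroup Γ, R ≤ C ∧ IsPGroup p R ∧ ∀ c ∈ C, ∃ n ∈ N, ∃ r ∈ R, c = n * r := by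
  let K : Subgroup C := N.subgroupOf C
  have hK : K.Normal := ⟨fun n hn' g => by
    rw [Subgroup.mem_subgroupOf] at hn' ⊢
    exact hn g g.2 n hn'⟩
  obtain ⟨P⟩ : Nonempty (Sylow p C) := inferInstance
  have hq : IsPGroup p (C ⧸ K) := by
    intro x
    obtain ⟨g, rfl⟩ := QuotientGroup.mk_surjective x
    obtain ⟨k, hk⟩ := hp g g.2
    refine ⟨k, ?_⟩
    rw [← QuotientGroup.mk_pow, QuotientGroup.eq_one_iff, Subgroup.mem_subgroupOf]
    exact hk
  obtain ⟨m, hm⟩ := IsPGroup.iff_card.1 hq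
  have h1 : (K ⊔ (P : Subgroup C)).index ∣ p ^ m := by
    rw [← hm]
    exact Subgroup.index_dvd_of_le le_sup_left
  have h2 : (K ⊔ (P : Subgroup C)).index ∣ (P : Subgroup C).index :=
    Subgroup.index_dvd_of_le le_sup_right
  have h3 : ¬ p ∣ (P : Subgroup C).index := P.not_dvd_index
  have h4 : (K ⊔ (P : Subgroup C)).index = 1 := by
    obtain ⟨j, _, hj⟩ := (Nat.dvd_prime_pow (Fact.out : p.Prime)).1 h1
    rcases Nat.eq_zero_or_pos j with h | h
    · rw [hj, h, pow_zero]
    · exact absurd (dvd_trans (dvd_trans (dvd_pow_self p h.ne') (hj ▸ dvd_rfl)) h2) h3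
  have h5 : K ⊔ (P : Subgroup C) = ⊤ := Subgroup.index_eq_one.1 h4
  refine ⟨(P : Subgroup C).map C.subtype, ?_, P.isPGroup'.map _, ?_⟩
  · rintro _ ⟨x, _, rfl⟩
    exact x.2
  · intro c hc
    have h6 : (⟨c, hc⟩ : C) ∈ K ⊔ (P : Subgroup C) := by rw [h5]; trivial
    obtain ⟨n, hn', r, hr, h7⟩ := Subgroup.mem_sup_of_normal_left.1 h6
    exact ⟨n, Subgroup.mem_subgroupOf.1 hn', r, ⟨r, hr, rfl⟩, (congrArg Subtype.val h7).symm⟩

section pp

variable {p : ℕ} [Fact p.Prime] {Γ : Type} [Group Γ] [Finite Γ]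

theorem pexp_modEq (p : ℕ) [Fact p.Prime] (Γ : Type) [Group Γ] [Finite Γ] (e m : ℕ)
    (hd : p ^ e * m ∣ Nat.card Γ) (hm : ¬ p ∣ m) :
    pexp p Γ ≡ 0 [MOD p ^ e] ∧ pexp p Γ ≡ 1 [MOD m] := by
  have hp : p.Prime := Fact.out
  have hc : Nat.card Γ ≠ 0 := Nat.card_pos.ne'
  have h1 : e ≤ (Nat.card Γ).factorization p := by
    exact (hp.pow_dvd_iff_le_factorization hc).1 ((dvd_mul_right _ _).trans hd)
  have hM : 0 < Nat.card Γ / p ^ (Nat.card Γ).factorization p := Nat.ordCompl_pos p hc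
  have hcop : Nat.Coprime p (Nat.card Γ / p ^ (Nat.card Γ).factorization p) :=
    Nat.coprime_ordCompl hp hc
  have h2 : 1 ≤ Nat.totient (Nat.card Γ / p ^ (Nat.card Γ).factorization p) :=
    Nat.totient_pos.2 hM
  constructor
  · rw [Nat.modEq_zero_iff_dvd]
    unfold pexp
    rw [← pow_mul]
    exact pow_dvd_pow p (le_trans h1 (Nat.le_mul_of_pos_right _ h2))
  · have h3 : m ∣ Nat.card Γ / p ^ (Nat.card Γ).factorization p := by
      have h4 : Nat.Coprime m (p ^ (Nat.card Γ).factorization p) :=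
        ((Nat.Prime.coprime_iff_not_dvd hp).2 hm).symm.pow_right _
      refine h4.dvd_of_dvd_mul_left ?_
      rw [Nat.ordProj_mul_ordCompl_eq_self]
      exact (dvd_mul_left _ _).trans hd
    have h5 := Nat.ModEq.pow_totient (x := p ^ (Nat.card Γ).factorization p)
      (n := Nat.card Γ / p ^ (Nat.card Γ).factorization p) (hcop.pow_left _)
    exact h5.of_dvd h3

theorem pow_congr {G : Type} [Group G] [Finite G] (x : G) (k l : ℕ)
    (h : ∀ e m : ℕ, p ^ e * m ∣ Nat.card G → ¬ p ∣ m → k ≡ l [MOD p ^ e] ∧ k ≡ l [MOD m]) :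
    x ^ k = x ^ l := by
  have hp : p.Prime := Fact.out
  rw [pow_eq_pow_iff_modEq]
  have ho : orderOf x ≠ 0 := (orderOf_pos x).ne'
  have h1 : p ^ (orderOf x).factorization p * (orderOf x / p ^ (orderOf x).factorization p) =
    orderOf x := Nat.ordProj_mul_ordCompl_eq_self _ _
  have h2 := h _ _ (h1 ▸ orderOf_dvd_natCard x) (Nat.not_dvd_ordCompl hp ho)
  have h3 : Nat.Coprime (p ^ (orderOf x).factorization p)
      (orderOf x / p ^ (orderOf x).factorization p) := (Nat.coprime_ordCompl hp ho).pow_left _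
  have h4 := (Nat.modEq_and_modEq_iff_modEq_mul h3).1 h2
  rwa [h1] at h4

theorem pp_coe (N : Subgroup Γ) (x : N) : ((pp p x : N) : Γ) = pp p (x : Γ) := by
  have h : x ^ pexp p N = x ^ pexp p Γ := by
    refine pow_congr (p := p) x _ _ fun e m hd hm => ?_
    have h1 := pexp_modEq p N e m hd hm
    have h2 := pexp_modEq p Γ e m (hd.trans (Subgroup.card_subgroup_dvd_card N)) hm
    exact ⟨h1.1.trans h2.1.symm, h1.2.trans h2.2.symm⟩
  change ((x ^ pexp p N : N) : Γ) = (x : Γ) ^ pexp p Γ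
  rw [h]
  rfl

theorem pp_pp (x : Γ) : pp p (pp p x) = pp p x := by
  unfold pp
  rw [← pow_mul]
  refine pow_congr (p := p) x _ _ fun e m hd hm => ?_
  have h1 := pexp_modEq p Γ e m hd hm
  exact ⟨(h1.1.mul h1.1).trans (by simpa using h1.1.symm),
    (h1.2.mul h1.2).trans (by simpa using h1.2.symm)⟩

theorem pp_reg (x : Γ) (hx : ¬ p ∣ orderOf x) : pp p x = x := by
  have h := pexp_modEq p Γ 0 (orderOf x) (by simpa using orderOf_dvd_natCard x) hx
  have h2 : x ^ pexp p Γ = x ^ 1 := pow_eq_pow_iff_modEq.2 h.2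
  rw [pow_one] at h2
  exact h2

theorem reg_pp (x : Γ) : ¬ p ∣ orderOf (pp p x) := by
  have hp : p.Prime := Fact.out
  have ho : orderOf x ≠ 0 := (orderOf_pos x).ne'
  have h1 : p ^ (orderOf x).factorization p * (orderOf x / p ^ (orderOf x).factorization p) =
    orderOf x := Nat.ordProj_mul_ordCompl_eq_self _ _
  have h2 := pexp_modEq p Γ _ _ (h1 ▸ orderOf_dvd_natCard x) (Nat.not_dvd_ordCompl hp ho)
  have h3 : pp p x ^ (orderOf x / p ^ (orderOf x).factorization p) = 1 := by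
    unfold pp
    rw [← pow_mul, ← orderOf_dvd_iff_pow_eq_one]
    obtain ⟨t, ht⟩ := (Nat.modEq_zero_iff_dvd).1 h2.1
    rw [ht]
    refine ⟨t, ?_⟩
    conv_rhs => rw [← h1]
    ring
  intro h
  exact Nat.not_dvd_ordCompl hp ho (h.trans (orderOf_dvd_of_pow_eq_one h3))

theorem pp_conj (g x : Γ) : pp p (g * x * g⁻¹) = g * pp p x * g⁻¹ := by
  unfold pp
  rw [conj_pow]

theorem pp_mem (N : Subgroup Γ) {x : Γ} (hx : x ∈ N) : pp p x ∈ N := N.pow_mem hx _

end pp

end Pool.Agent.Y77.NV
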