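import Mathlib
import Pool.Agent.Y63.NV.Stm2
import Pool.Agent.Y63.AWC.Wt
import Pool.Agent.Y77.NV.Base

/-!
# The Brauer quotient of the projective centre decomposes over the complements
-/

open scoped Classical

noncomputable section

namespace Pool.Agent.Y77.NV

open Pool.Agent.Y63.NV

section transport

variable {p : ℕ} {F : Type} [Field F] {K K' : Type} [Group K] [Group K']

theorem mem_E0_top (x : K) : x ∈ E0 p (⊤ : Subgroup K) ↔
    ¬ p ∣ Nat.card {y : K // y * x = x * y} := by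
  have h : Nat.card ↥((⊤ : Subgroup K) ⊓ Subgroup.centralizer {x}) =
      Nat.card {y : K // y * x = x * y} := by
    refine Nat.card_congr (Equiv.subtypeEquivRight fun y => ?_)
    rw [Subgroup.mem_inf, Subgroup.mem_centralizer_singleton_iff]
    exact ⟨fun h => h.2, fun h => ⟨trivial, h⟩⟩
  constructor
  · intro h1
    rw [← h]
    exact h1.2.1
  · intro h1
    rw [← h] at h1
    exact ⟨trivial, h1, fun y => ⟨y, trivial, rfl⟩⟩

theorem E0_equiv (e : K ≃* K') (x : K) :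
    e x ∈ E0 p (⊤ : Subgroup K') ↔ x ∈ E0 p (⊤ : Subgroup K) := by
  rw [mem_E0_top, mem_E0_top]
  have h : Nat.card {y : K // y * x = x * y} = Nat.card {y : K' // y * e x = e x * y} := by
    refine Nat.card_congr (e.toEquiv.subtypeEquiv fun y => ?_)
    change _ ↔ e y * e x = e x * e y
    rw [← map_mul, ← map_mul, e.injective.eq_iff]
  rw [h]

theorem prod0_equiv (e : K ≃* K') (f g : K' → F) :
    (fun x => prod0 p (⊤ : Subgroup K') f g (e x)) =
      prod0 p (⊤ : Subgroup K) (fun x => f (e x)) (fun x => g (e x)) := by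
  funext x
  unfold prod0
  have h : conv f g (e x) = conv (fun x => f (e x)) (fun x => g (e x)) x := by
    unfold conv
    rw [← finsum_comp_equiv e.toEquiv]
    refine finsum_congr fun y => ?_
    change f (e y) * g ((e y)⁻¹ * e x) = f (e y) * g (e (y⁻¹ * x))
    rw [map_mul, map_inv]
  by_cases hx : x ∈ E0 p (⊤ : Subgroup K)
  · rw [if_pos hx, if_pos ((E0_equiv e x).2 hx), h]
  · rw [if_neg hx, if_neg (fun h' => hx ((E0_equiv e x).1 h'))]

theorem VS_equiv (e : K ≃* K') (f : K' → F) :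
    f ∈ VS (F := F) (E0 p (⊤ : Subgroup K')) ⊤ ↔
      (fun x => f (e x)) ∈ VS (F := F) (E0 p (⊤ : Subgroup K)) ⊤ := by
  constructor
  · rintro ⟨h1, h2⟩
    refine ⟨fun x hx => h1 _ fun h => hx ((E0_equiv e x).1 h), fun j _ x => ?_⟩
    change f (e (j * x * j⁻¹)) = f (e x)
    rw [map_mul, map_mul, map_inv]
    exact h2 _ trivial _
  · rintro ⟨h1, h2⟩
    refine ⟨fun x hx => ?_, fun j _ x => ?_⟩
    · have h3 := h1 (e.symm x) (fun h => hx (by
        have h4 := (E0_equiv e (e.symm x)).2 h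
        rwa [e.apply_symm_apply] at h4))
      change f (e (e.symm x)) = 0 at h3
      rwa [e.apply_symm_apply] at h3
    · have h3 := h2 (e.symm j) trivial (e.symm x)
      change f (e (e.symm j * e.symm x * (e.symm j)⁻¹)) = f (e (e.symm x)) at h3
      rwa [map_mul, map_mul, map_inv, e.apply_symm_apply, e.apply_symm_apply] at h3

theorem dzd_congr (e : K ≃* K') :
    dzd p F (⊤ : Subgroup K) = dzd p F (⊤ : Subgroup K') := by
  unfold dzd
  let T : (K' → F) ≃ₗ[F] (K → F) := LinearEquiv.funCongrLeft F F e.toEquiv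
  have hT : ∀ f : K' → F, T f = fun x => f (e x) := fun f => rfl
  have h : {h : K → F | ∃ f ∈ VS (F := F) (E0 p (⊤ : Subgroup K)) ⊤,
      ∃ g ∈ VS (F := F) (E0 p (⊤ : Subgroup K)) ⊤, h = prod0 p ⊤ f g} =
      (T : (K' → F) →ₗ[F] (K → F)) '' {h : K' → F | ∃ f ∈ VS (F := F) (E0 p (⊤ : Subgroup K')) ⊤,
      ∃ g ∈ VS (F := F) (E0 p (⊤ : Subgroup K')) ⊤, h = prod0 p ⊤ f g} := by
    ext h
    constructor
    · rintro ⟨f, hf, g, hg, rfl⟩
      have hf' : f = fun x => (fun y => f (e.symm y)) (e x) := by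
        funext x
        exact congrArg f (e.symm_apply_apply x).symm
      have hg' : g = fun x => (fun y => g (e.symm y)) (e x) := by
        funext x
        exact congrArg g (e.symm_apply_apply x).symm
      refine ⟨prod0 p ⊤ (fun y => f (e.symm y)) (fun y => g (e.symm y)),
        ⟨_, (VS_equiv e _).2 (hf' ▸ hf), _, (VS_equiv e _).2 (hg' ▸ hg), rfl⟩, ?_⟩
      change T _ = _
      rw [hT, prod0_equiv e, ← hf', ← hg']
    · rintro ⟨_, ⟨f, hf, g, hg, rfl⟩, rfl⟩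
      refine ⟨_, (VS_equiv e f).1 hf, _, (VS_equiv e g).1 hg, ?_⟩
      change T _ = _
      rw [hT, prod0_equiv e]
  rw [h, ← Submodule.map_span]
  exact LinearEquiv.finrank_map_eq T _

end transport

section main

variable {p : ℕ} [Fact p.Prime] {Y : Type} [Group Y] [Finite Y] {X : Subgroup Y}

/-- `R` is a complement of `X` and a `p`-group -/
structure Cmp (p : ℕ) (X R : Subgroup Y) : Prop where
  pg : IsPGroup p R
  sup : ∀ y : Y, ∃ n ∈ X, ∃ r ∈ R, y = n * r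
  inf : ∀ x ∈ X, x ∈ R → x = 1

theorem cmp_iff [hX : X.Normal] (R : Subgroup Y) :
    Cmp p X R ↔ IsPGroup p R ∧ X ⊔ R = ⊤ ∧ X ⊓ R = ⊥ := by
  constructor
  · rintro ⟨h1, h2, h3⟩
    refine ⟨h1, ?_, ?_⟩
    · rw [eq_top_iff]
      intro y _
      obtain ⟨n, hn, r, hr, rfl⟩ := h2 y
      exact Subgroup.mul_mem_sup hn hr
    · rw [eq_bot_iff]
      rintro x ⟨hx, hr⟩
      exact Subgroup.mem_bot.2 (h3 x hx hr)
  · rintro ⟨h1, h2, h3⟩
    refine ⟨h1, fun y => ?_, fun x hx hr => ?_⟩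
    · have hy : y ∈ X ⊔ R := by rw [h2]; trivial
      obtain ⟨n, hn, r, hr, h⟩ := Subgroup.mem_sup_of_normal_left.1 hy
      exact ⟨n, hn, r, hr, h.symm⟩
    · have h4 : x ∈ X ⊓ R := ⟨hx, hr⟩
      rw [h3] at h4
      exact Subgroup.mem_bot.1 h4

/-- the conjugate subgroup -/
def cjg (g : Y) (R : Subgroup Y) : Subgroup Y := R.map (MulAut.conj g).toMonoidHom

theorem mem_cjg {g : Y} {R : Subgroup Y} {y : Y} : y ∈ cjg g R ↔ g⁻¹ * y * g ∈ R := by
  constructor
  · rintro ⟨x, hx, rfl⟩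
    have h : g⁻¹ * (MulAut.conj g).toMonoidHom x * g = x := by
      change g⁻¹ * (g * x * g⁻¹) * g = x
      group
    rwa [h]
  · intro h
    refine ⟨_, h, ?_⟩
    change g * (g⁻¹ * y * g) * g⁻¹ = y
    group

theorem cmp_cjg [hX : X.Normal] {R : Subgroup Y} (h : Cmp p X R) (g : Y) :
    Cmp p X (cjg g R) := by
  refine ⟨h.pg.map _, fun y => ?_, fun x hx hr => ?_⟩
  · obtain ⟨n, hn, r, hr, h1⟩ := h.sup (g⁻¹ * y * g)
    refine ⟨g * n * g⁻¹, hX.conj_mem n hn g, g * r * g⁻¹, mem_cjg.2 ?_, ?_⟩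
    · have h2 : g⁻¹ * (g * r * g⁻¹) * g = r := by group
      rwa [h2]
    · have h2 : g * n * g⁻¹ * (g * r * g⁻¹) = g * (n * r) * g⁻¹ := by group
      rw [h2, ← h1]
      group
  · have h1 := h.inf (g⁻¹ * x * g) (by
      have := hX.conj_mem x hx g⁻¹
      rwa [inv_inv] at this) (mem_cjg.1 hr)
    have h2 : x = g * (g⁻¹ * x * g) * g⁻¹ := by group
    rw [h2, h1]
    simp

/-- the centraliser of `R` in `X` -/
abbrev KR (X R : Subgroup Y) : Subgroup Y := X ⊓ Subgroup.centralizer (R : Set Y)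

theorem mem_KR {R : Subgroup Y} {x : Y} : x ∈ KR X R ↔ x ∈ X ∧ ∀ r ∈ R, r * x = x * r := by
  rw [Subgroup.mem_inf, Subgroup.mem_centralizer_iff]
  rfl

/-- `p` does not divide `|C_X(x)|` -/
theorem mem_E0 {R : Subgroup Y} (h : Cmp p X R) [hX : X.Normal] (x : KR X R) :
    x ∈ E0 p (⊤ : Subgroup (KR X R)) ↔ (x : Y) ∈ E0 p X := by
  have hx := mem_KR.1 x.2
  let inst : MulAction R {c : Y // c ∈ X ∧ c * x = x * c} :=
    { smul := fun r c => ⟨r * c.1 * (r : Y)⁻¹, hX.conj_mem _ c.2.1 _, by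
        have h1 := hx.2 r r.2
        have h2 : (r : Y)⁻¹ * x = x * (r : Y)⁻¹ := hx.2 _ (R.inv_mem r.2)
        calc (r : Y) * c.1 * (r : Y)⁻¹ * x = r * c.1 * (x * (r : Y)⁻¹) := by
              rw [mul_assoc, h2]
          _ = r * (c.1 * x) * (r : Y)⁻¹ := by group
          _ = (r * x) * c.1 * (r : Y)⁻¹ := by rw [c.2.2]; group
          _ = x * (r * c.1 * (r : Y)⁻¹) := by rw [h1]; group⟩
      one_smul := fun c => Subtype.ext (by
        change ((1 : R) : Y) * c.1 * ((1 : R) : Y)⁻¹ = c.1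
        simp)
      mul_smul := fun r s c => Subtype.ext (by
        change ((r * s : R) : Y) * c.1 * ((r * s : R) : Y)⁻¹ =
          r * (s * c.1 * (s : Y)⁻¹) * (r : Y)⁻¹
        simp [mul_assoc]) }
  have h1 := h.pg.card_modEq_card_fixedPoints {c : Y // c ∈ X ∧ c * x = x * c}
  have h2 : Nat.card (MulAction.fixedPoints R {c : Y // c ∈ X ∧ c * x = x * c}) =
      Nat.card {y : KR X R // y * x = x * y} := by
    refine Nat.card_congr
      { toFun := fun c => ⟨⟨c.1.1, mem_KR.2 ⟨c.1.2.1, fun r hr => ?_⟩⟩, Subtype.ext c.1.2.2⟩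
        invFun := fun c => ⟨⟨c.1.1, (mem_KR.1 c.1.2).1, congrArg Subtype.val c.2⟩, fun r => ?_⟩
        left_inv := fun c => rfl
        right_inv := fun c => rfl }
    · have h3 : r * c.1.1 * r⁻¹ = c.1.1 := congrArg Subtype.val (c.2 ⟨r, hr⟩)
      exact mul_inv_eq_iff_eq_mul.1 h3
    · refine Subtype.ext ?_
      change (r : Y) * c.1.1 * (r : Y)⁻¹ = c.1.1
      rw [(mem_KR.1 c.1.2).2 r r.2]
      group
  have h3 : Nat.card ↥(X ⊓ Subgroup.centralizer {(x : Y)}) =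
      Nat.card {c : Y // c ∈ X ∧ c * x = x * c} := by
    refine Nat.card_congr (Equiv.subtypeEquivRight fun y => ?_)
    rw [Subgroup.mem_inf, Subgroup.mem_centralizer_singleton_iff]
  have h4 : p ∣ Nat.card {c : Y // c ∈ X ∧ c * x = x * c} ↔
      p ∣ Nat.card {y : KR X R // y * x = x * y} := by
    rw [← h2, ← Nat.modEq_zero_iff_dvd, ← Nat.modEq_zero_iff_dvd]
    exact ⟨fun h => h1.symm.trans h, fun h => h1.trans h⟩
  rw [mem_E0_top, ← h4, ← h3]
  constructor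
  · intro h5
    refine ⟨hx.1, h5, fun y => ?_⟩
    obtain ⟨n, hn, r, hr, rfl⟩ := h.sup y
    refine ⟨n, hn, ?_⟩
    have h6 : n * r * x * (n * r)⁻¹ = n * (r * x) * r⁻¹ * n⁻¹ := by group
    rw [h6, hx.2 r hr]
    group
  · exact fun h5 => h5.2.1

theorem E0_conj [hX : X.Normal] {x : Y} (hx : x ∈ E0 p X) (g : Y) : g * x * g⁻¹ ∈ E0 p X := by
  obtain ⟨h1, h2, h3⟩ := hx
  refine ⟨hX.conj_mem _ h1 _, ?_, fun y => ?_⟩
  · have h4 : Nat.card ↥(X ⊓ Subgroup.centralizer {g * x * g⁻¹}) =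
        Nat.card ↥(X ⊓ Subgroup.centralizer {x}) := by
      refine (Nat.card_congr ((MulAut.conj g).toEquiv.subtypeEquiv fun y => ?_)).symm
      change _ ↔ g * y * g⁻¹ ∈ _
      rw [Subgroup.mem_inf, Subgroup.mem_centralizer_singleton_iff, Subgroup.mem_inf,
        Subgroup.mem_centralizer_singleton_iff]
      refine and_congr ?_ ?_
      · refine ⟨fun h => hX.conj_mem _ h _, fun h => ?_⟩
        have h5 := hX.conj_mem _ h g⁻¹
        have h6 : g⁻¹ * (g * y * g⁻¹) * g⁻¹⁻¹ = y := by group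
        rwa [h6] at h5
      · have h5 : g * y * g⁻¹ * (g * x * g⁻¹) = g * (y * x) * g⁻¹ := by group
        have h6 : g * x * g⁻¹ * (g * y * g⁻¹) = g * (x * y) * g⁻¹ := by group
        rw [h5, h6]
        constructor
        · intro h; rw [h]
        · intro h
          exact mul_left_cancel (mul_right_cancel h)
    rw [h4]
    exact h2
  · obtain ⟨n, hn, h4⟩ := h3 (g⁻¹ * (y * g))
    refine ⟨g * n * g⁻¹, hX.conj_mem _ hn _, ?_⟩
    have h5 : y * (g * x * g⁻¹) * y⁻¹ =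
        g * (g⁻¹ * (y * g) * x * (g⁻¹ * (y * g))⁻¹) * g⁻¹ := by group
    rw [h5, h4]
    group

/-- every element of `E0` is centralised by a complement -/
theorem exists_cmp [hX : X.Normal] (hq : IsPGroup p (Y ⧸ X)) {x : Y} (hx : x ∈ E0 p X) :
    ∃ R : Subgroup Y, Cmp p X R ∧ x ∈ KR X R := by
  obtain ⟨R, hRC, hRp, hR⟩ := supl p (Subgroup.centralizer {x}) X
    (fun h _ n hn => hX.conj_mem n hn h) (fun h _ => by
      obtain ⟨k, hk⟩ := hq (h : Y ⧸ X)
      refine ⟨k, ?_⟩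
      rw [← QuotientGroup.eq_one_iff]
      exact hk)
  refine ⟨R, ⟨hRp, fun y => ?_, fun z hz hr => ?_⟩, mem_KR.2 ⟨hx.1, fun r hr =>
    Subgroup.mem_centralizer_singleton_iff.1 (hRC hr)⟩⟩
  · obtain ⟨n, hn, h1⟩ := hx.2.2 y
    have h2 : n⁻¹ * y ∈ Subgroup.centralizer {x} := by
      rw [Subgroup.mem_centralizer_singleton_iff]
      have h3 : y * x = n * x * n⁻¹ * y := by rw [← h1]; group
      rw [mul_assoc, h3]
      group
    obtain ⟨m, hm, r, hr, h4⟩ := hR _ h2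
    refine ⟨n * m, X.mul_mem hn hm, r, hr, ?_⟩
    rw [mul_assoc, ← h4]
    group
  · obtain ⟨k, hk⟩ := hRp ⟨z, hr⟩
    have h1 : z ^ p ^ k = 1 := congrArg Subtype.val hk
    have h2 : orderOf z ∣ Nat.card ↥(X ⊓ Subgroup.centralizer {x}) := by
      have h3 : z ∈ X ⊓ Subgroup.centralizer {x} := Subgroup.mem_inf.2 ⟨hz, hRC hr⟩
      have h4 := orderOf_dvd_natCard (⟨z, h3⟩ : ↥(X ⊓ Subgroup.centralizer {x}))
      rwa [Subgroup.orderOf_mk] at h4
    have h3 : orderOf z ∣ p ^ k := orderOf_dvd_of_pow_eq_one h1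
    obtain ⟨j, _, hj⟩ := (Nat.dvd_prime_pow (Fact.out : p.Prime)).1 h3
    rcases Nat.eq_zero_or_pos j with h | h
    · rw [h, pow_zero] at hj
      exact orderOf_eq_one_iff.1 hj
    · exact absurd ((dvd_pow_self p h.ne').trans (hj ▸ h2)) hx.2.1

/-- two complements which centralise the same element of `E0` are conjugate in its centraliser -/
theorem syl [hX : X.Normal] {R R' : Subgroup Y} (h : Cmp p X R) (h' : Cmp p X R') {x : Y}
    (hx0 : x ∈ E0 p X) (hx : x ∈ KR X R) (hx' : x ∈ KR X R') :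
    ∃ c : Y, c * x = x * c ∧ cjg c R' = R := by
  set C : Subgroup Y := Subgroup.centralizer {x} with hC
  have key : ∀ S : Subgroup Y, Cmp p X S → x ∈ KR X S → ∃ P : Sylow p C,
      (P : Subgroup C) = S.subgroupOf C := by
    intro S hS hxS
    have hSC : S ≤ C := fun s hs => by
      rw [hC, Subgroup.mem_centralizer_singleton_iff]
      exact (mem_KR.1 hxS).2 s hs
    have h1 : IsPGroup p (S.subgroupOf C) := by
      have h2 := hS.pg.of_equiv (Subgroup.subgroupOfEquivOfLe hSC).symm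
      exact h2
    have h3 : Subgroup.IsComplement' (X.subgroupOf C) (S.subgroupOf C) := by
      apply Subgroup.isComplement'_of_disjoint_and_mul_eq_univ
      · rw [disjoint_iff, eq_bot_iff]
        rintro ⟨y, hy⟩ ⟨hyX, hyS⟩
        refine Subgroup.mem_bot.2 (Subtype.ext ?_)
        exact hS.inf y (Subgroup.mem_subgroupOf.1 hyX) (Subgroup.mem_subgroupOf.1 hyS)
      · rw [Set.eq_univ_iff_forall]
        rintro ⟨y, hy⟩
        obtain ⟨n, hn, r, hr, h2⟩ := hS.sup y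
        have hnC : n ∈ C := by
          have h3 : n = y * r⁻¹ := by rw [h2]; group
          rw [h3]
          exact C.mul_mem hy (C.inv_mem (hSC hr))
        exact Set.mem_mul.2 ⟨⟨n, hnC⟩, Subgroup.mem_subgroupOf.2 hn, ⟨r, hSC hr⟩,
          Subgroup.mem_subgroupOf.2 hr, Subtype.ext h2.symm⟩
    have h4 : (S.subgroupOf C).index = Nat.card ↥(X ⊓ C) := by
      rw [h3.index_eq_card]
      exact Nat.card_congr
        { toFun := fun y => ⟨y.1.1, Subgroup.mem_inf.2 ⟨Subgroup.mem_subgroupOf.1 y.2, y.1.2⟩⟩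
          invFun := fun y => ⟨⟨y.1, (Subgroup.mem_inf.1 y.2).2⟩,
            Subgroup.mem_subgroupOf.2 (Subgroup.mem_inf.1 y.2).1⟩
          left_inv := fun y => rfl
          right_inv := fun y => rfl }
    have h5 : ¬ p ∣ (S.subgroupOf C).index := by
      rw [h4]
      exact hx0.2.1
    exact ⟨h1.toSylow h5, rfl⟩
  obtain ⟨P, hP⟩ := key R h hx
  obtain ⟨P', hP'⟩ := key R' h' hx'
  obtain ⟨c, hc⟩ := MulAction.exists_smul_eq C P' P
  have hRC : R ≤ C := fun s hs => by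
    rw [hC, Subgroup.mem_centralizer_singleton_iff]
    exact (mem_KR.1 hx).2 s hs
  have hRC' : R' ≤ C := fun s hs => by
    rw [hC, Subgroup.mem_centralizer_singleton_iff]
    exact (mem_KR.1 hx').2 s hs
  refine ⟨c, Subgroup.mem_centralizer_singleton_iff.1 c.2, ?_⟩
  have h1 : ∀ y : C, y ∈ R.subgroupOf C ↔ c⁻¹ * y * c ∈ R'.subgroupOf C := by
    intro y
    rw [← hP, ← hP', ← hc, Sylow.coe_subgroup_smul,
      Subgroup.mem_pointwise_smul_iff_inv_smul_mem]
    have h2 : (MulAut.conj c)⁻¹ • y = c⁻¹ * y * c := by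
      rw [← map_inv]
      change c⁻¹ * y * c⁻¹⁻¹ = _
      rw [inv_inv]
    rw [h2]
  ext y
  rw [mem_cjg]
  constructor
  · intro hy
    have hyC : y ∈ C := by
      have h2 : (c : Y) * ((c : Y)⁻¹ * y * c) * (c : Y)⁻¹ ∈ C :=
        C.mul_mem (C.mul_mem c.2 (hRC' hy)) (C.inv_mem c.2)
      have h3 : (c : Y) * ((c : Y)⁻¹ * y * c) * (c : Y)⁻¹ = y := by group
      rwa [h3] at h2
    exact Subgroup.mem_subgroupOf.1 ((h1 ⟨y, hyC⟩).2 (Subgroup.mem_subgroupOf.2 hy))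
  · intro hy
    exact Subgroup.mem_subgroupOf.1 ((h1 ⟨y, hRC hy⟩).1 (Subgroup.mem_subgroupOf.2 hy))

theorem KR_cjg [hX : X.Normal] {R : Subgroup Y} {x : Y} (hx : x ∈ KR X R) (g : Y) :
    g * x * g⁻¹ ∈ KR X (cjg g R) := by
  obtain ⟨h1, h2⟩ := mem_KR.1 hx
  refine mem_KR.2 ⟨hX.conj_mem _ h1 g, fun r hr => ?_⟩
  have h3 := h2 _ (mem_cjg.1 hr)
  calc r * (g * x * g⁻¹) = g * (g⁻¹ * r * g * x) * g⁻¹ := by group
    _ = g * x * g⁻¹ * r := by rw [h3]; group

/-- fusion in `E0` is controlled by the centraliser of the complement -/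
theorem wd [hX : X.Normal] {R : Subgroup Y} (h : Cmp p X R) {x x' : Y} (hx : x ∈ KR X R)
    (hx' : x' ∈ KR X R) (h0 : x' ∈ E0 p X) {g : Y} (hg : g * x * g⁻¹ = x') :
    ∃ n ∈ KR X R, x' = n * x * n⁻¹ := by
  obtain ⟨c, hc1, hc2⟩ := syl h (cmp_cjg h g) h0 hx' (hg ▸ KR_cjg hx g)
  have hn : ∀ r : Y, r ∈ R ↔ (c * g)⁻¹ * r * (c * g) ∈ R := by
    intro r
    conv_lhs => rw [← hc2]
    rw [mem_cjg, mem_cjg]
    have h1 : g⁻¹ * (c⁻¹ * r * c) * g = (c * g)⁻¹ * r * (c * g) := by group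
    rw [h1]
  have hcx : c * g * x * (c * g)⁻¹ = x' := by
    have h1 : c * g * x * (c * g)⁻¹ = c * (g * x * g⁻¹) * c⁻¹ := by group
    rw [h1, hg, hc1]
    group
  obtain ⟨n, hnX, r, hr, h2⟩ := h.sup (c * g)
  have hnR : ∀ s ∈ R, n * s * n⁻¹ ∈ R := by
    intro s hs
    have h3 : r⁻¹ * s * r ∈ R := R.mul_mem (R.mul_mem (R.inv_mem hr) hs) hr
    have h4 : n * s * n⁻¹ = c * g * (r⁻¹ * s * r) * (c * g)⁻¹ := by
      rw [h2]
      group
    rw [hn, h4]
    have h5 : (c * g)⁻¹ * (c * g * (r⁻¹ * s * r) * (c * g)⁻¹) * (c * g) = r⁻¹ * s * r := by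
      group
    rwa [h5]
  refine ⟨n, mem_KR.2 ⟨hnX, fun s hs => ?_⟩, ?_⟩
  · have h3 : n * s * n⁻¹ * s⁻¹ ∈ R := R.mul_mem (hnR s hs) (R.inv_mem hs)
    have h4 : n * s * n⁻¹ * s⁻¹ ∈ X := by
      have h5 : n * s * n⁻¹ * s⁻¹ = n * (s * n⁻¹ * s⁻¹) := by group
      rw [h5]
      exact X.mul_mem hnX (hX.conj_mem _ (X.inv_mem hnX) s)
    have h5 := h.inf _ h4 h3
    have h6 : n * s * n⁻¹ = s := mul_inv_eq_one.1 h5
    exact (mul_inv_eq_iff_eq_mul.1 h6).symm
  · rw [← hcx, h2]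
    have h3 := (mem_KR.1 hx).2 r hr
    have h4 : n * r * x * (n * r)⁻¹ = n * (r * x) * r⁻¹ * n⁻¹ := by group
    rw [h4, h3]
    group

variable {F : Type} [Field F] [CharP F p]

/-- the restriction -/
def rs (F : Type) [Field F] (K : Subgroup Y) : (Y → F) →ₗ[F] (K → F) :=
  LinearMap.funLeft F F (Subtype.val : K → Y)

theorem rs_apply (K : Subgroup Y) (f : Y → F) (x : K) : rs F K f x = f x := rfl

theorem rs_VS [hX : X.Normal] {R : Subgroup Y} (h : Cmp p X R) {f : Y → F}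
    (hf : f ∈ VS (F := F) (E0 p X) ⊤) :
    rs F (KR X R) f ∈ VS (F := F) (E0 p (⊤ : Subgroup (KR X R))) ⊤ :=
  ⟨fun x hx => hf.1 _ fun h1 => hx ((mem_E0 h x).2 h1), fun j _ x => hf.2 j trivial x⟩

/-- restriction to the centraliser of a complement is multiplicative -/
theorem rs_prod0 [hX : X.Normal] {R : Subgroup Y} (h : Cmp p X R) {f g : Y → F}
    (hf : f ∈ VS (F := F) (E0 p X) ⊤) (hg : g ∈ VS (F := F) (E0 p X) ⊤) :
    rs F (KR X R) (prod0 p X f g) = prod0 p ⊤ (rs F (KR X R) f) (rs F (KR X R) g) := by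
  funext x
  rw [rs_apply]
  unfold prod0
  by_cases hx0 : x ∈ E0 p (⊤ : Subgroup (KR X R))
  swap
  · rw [if_neg hx0, if_neg fun h1 => hx0 ((mem_E0 h x).2 h1)]
  rw [if_pos hx0, if_pos ((mem_E0 h x).1 hx0)]
  have : Fintype Y := Fintype.ofFinite Y
  have hx := (mem_KR.1 x.2).2
  let K2 : Y → F := fun y => if y ∈ KR X R then f y * g (y⁻¹ * x) else 0
  have h1 : conv (rs F (KR X R) f) (rs F (KR X R) g) x = ∑ y : Y, K2 y := by
    unfold conv
    rw [finsum_eq_sum_of_fintype]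
    have h3 : ∑ y : Y, K2 y = ∑ y ∈ Finset.univ.filter (fun y => y ∈ KR X R), K2 y := by
      refine (Finset.sum_filter_of_ne fun y _ hy => ?_).symm
      by_contra h4
      exact hy (if_neg h4)
    rw [h3, Finset.sum_subtype (p := fun y => y ∈ KR X R) _ (fun y => by simp) K2]
    refine Finset.sum_congr rfl fun y _ => ?_
    exact (if_pos y.2).symm
  rw [h1]
  unfold conv
  rw [finsum_eq_sum_of_fintype, ← sub_eq_zero, ← Finset.sum_sub_distrib]
  refine psum h.pg (fun r y => r * y * (r : Y)⁻¹) (fun y => by simp)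
    (fun r s y => by simp [mul_assoc]) _ ?_ ?_
  · intro r y
    have e1 : f (r * y * (r : Y)⁻¹) * g ((r * y * (r : Y)⁻¹)⁻¹ * x) = f y * g (y⁻¹ * x) := by
      have e2 : ((r : Y) * y * (r : Y)⁻¹)⁻¹ * x = r * (y⁻¹ * x) * (r : Y)⁻¹ := by
        have e3 : (r : Y)⁻¹ * x = x * (r : Y)⁻¹ := hx _ (R.inv_mem r.2)
        calc ((r : Y) * y * (r : Y)⁻¹)⁻¹ * x = r * y⁻¹ * ((r : Y)⁻¹ * x) := by group
          _ = r * (y⁻¹ * x) * (r : Y)⁻¹ := by rw [e3]; group
      rw [e2, hf.2 r trivial, hg.2 r trivial]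
    have e4 : (r : Y) * y * (r : Y)⁻¹ ∈ KR X R ↔ y ∈ KR X R := by
      constructor
      · intro hy
        have h5 := (mem_KR.1 hy).2 r r.2
        have h6 : (r : Y) * y * (r : Y)⁻¹ = y := by
          have h7 : (r : Y) * (r * y * (r : Y)⁻¹) = r * y := by
            rw [h5]
            group
          exact mul_left_cancel h7
        rwa [h6] at hy
      · intro hy
        have h5 : (r : Y) * y * (r : Y)⁻¹ = y := by
          rw [(mem_KR.1 hy).2 r r.2]
          group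
        rwa [h5]
    have e5 : K2 (r * y * (r : Y)⁻¹) = K2 y := by
      by_cases hy : y ∈ KR X R
      · simp only [K2, if_pos hy, if_pos (e4.2 hy), e1]
      · simp only [K2, if_neg hy, if_neg (fun h7 => hy (e4.1 h7))]
    rw [e1, e5]
  · intro y hy
    by_cases hyX : y ∈ X
    · have h5 : y ∈ KR X R := mem_KR.2 ⟨hyX, fun r hr =>
        mul_inv_eq_iff_eq_mul.1 (hy ⟨r, hr⟩)⟩
      simp only [K2, if_pos h5, sub_self]
    · have h5 : ¬ y ∈ KR X R := fun h6 => hyX (mem_KR.1 h6).1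
      have h6 : f y = 0 := hf.1 y fun h7 => hyX h7.1
      simp only [K2, if_neg h5, h6, zero_mul, sub_self]

/-- extension of class functions from the centraliser of a complement -/
theorem extend [hX : X.Normal] {R : Subgroup Y} (h : Cmp p X R) {θ : KR X R → F}
    (hθ : θ ∈ VS (F := F) (E0 p (⊤ : Subgroup (KR X R))) ⊤) :
    ∃ f ∈ VS (F := F) (E0 p X) ⊤, rs F (KR X R) f = θ ∧
      ∀ R' : Subgroup Y, Cmp p X R' → (∀ g : Y, cjg g R' ≠ R) → rs F (KR X R') f = 0 := by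
  let Pr : Y → KR X R → Prop := fun y x => (∃ g : Y, g * y * g⁻¹ = x) ∧ (x : Y) ∈ E0 p X
  let φ : (KR X R → Prop) → F := fun P => if h : ∃ x, P x then θ h.choose else 0
  have hPr : ∀ j y : Y, Pr (j * y * j⁻¹) = Pr y := by
    intro j y
    funext x
    refine propext (and_congr_left fun _ => ⟨?_, ?_⟩)
    · rintro ⟨g, hg⟩
      exact ⟨g * j, by rw [← hg]; group⟩
    · rintro ⟨g, hg⟩
      exact ⟨g * j⁻¹, by rw [← hg]; group⟩
  refine ⟨fun y => φ (Pr y), ⟨fun y hy => ?_, fun j _ y => ?_⟩, ?_, fun R' hR' hne => ?_⟩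
  · refine dif_neg ?_
    rintro ⟨x, ⟨g, hg⟩, hx⟩
    apply hy
    have h1 := E0_conj hx g⁻¹
    rw [← hg] at h1
    have h2 : g⁻¹ * (g * y * g⁻¹) * g⁻¹⁻¹ = y := by group
    rwa [h2] at h1
  · change φ (Pr (j * y * j⁻¹)) = φ (Pr y)
    rw [hPr]
  · funext x
    rw [rs_apply]
    by_cases hx : (x : Y) ∈ E0 p X
    · have h1 : ∃ x', Pr x x' := ⟨x, ⟨1, by simp⟩, hx⟩
      have h2 : φ (Pr x) = θ h1.choose := dif_pos h1
      rw [h2]
      obtain ⟨⟨g, hg⟩, h3⟩ := h1.choose_spec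
      obtain ⟨n, hn, h4⟩ := wd h x.2 h1.choose.2 h3 hg
      have h5 : h1.choose = ⟨n, hn⟩ * x * (⟨n, hn⟩ : KR X R)⁻¹ := Subtype.ext h4
      rw [h5]
      exact hθ.2 _ trivial _
    · rw [hθ.1 x fun h1 => hx ((mem_E0 h x).1 h1)]
      refine dif_neg ?_
      rintro ⟨x', ⟨g, hg⟩, hx'⟩
      apply hx
      have h1 := E0_conj hx' g⁻¹
      rw [← hg] at h1
      have h2 : g⁻¹ * (g * (x : Y) * g⁻¹) * g⁻¹⁻¹ = x := by group
      rwa [h2] at h1
  · funext x
    rw [rs_apply]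
    refine dif_neg ?_
    rintro ⟨x', ⟨g, hg⟩, hx'⟩
    obtain ⟨c, _, hc⟩ := syl h (cmp_cjg hR' g) hx' x'.2 (hg ▸ KR_cjg x.2 g)
    refine hne (c * g) ?_
    rw [← hc]
    ext y
    rw [mem_cjg, mem_cjg, mem_cjg]
    have h1 : (c * g)⁻¹ * y * (c * g) = g⁻¹ * (c⁻¹ * y * c) * g := by group
    rw [h1]

theorem prod0_VS [hX : X.Normal] {f g : Y → F} (hf : f ∈ VS (F := F) (E0 p X) ⊤)
    (hg : g ∈ VS (F := F) (E0 p X) ⊤) : prod0 p X f g ∈ VS (F := F) (E0 p X) ⊤ := by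
  refine ⟨fun x hx => if_neg hx, fun j _ x => ?_⟩
  have h1 : conv f g (j * x * j⁻¹) = conv f g x := by
    unfold conv
    rw [← finsum_comp_equiv (MulAut.conj j).toEquiv]
    refine finsum_congr fun y => ?_
    change f (j * y * j⁻¹) * g ((j * y * j⁻¹)⁻¹ * (j * x * j⁻¹)) = f y * g (y⁻¹ * x)
    have h2 : (j * y * j⁻¹)⁻¹ * (j * x * j⁻¹) = j * (y⁻¹ * x) * j⁻¹ := by group
    rw [h2, hf.2 j trivial, hg.2 j trivial]
  unfold prod0
  by_cases hx : x ∈ E0 p X
  · rw [if_pos hx, if_pos (E0_conj hx j), h1]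
  · have hx' : ¬ j * x * j⁻¹ ∈ E0 p X := fun h => hx (by
      have h2 := E0_conj h j⁻¹
      have h3 : j⁻¹ * (j * x * j⁻¹) * j⁻¹⁻¹ = x := by group
      rwa [h3] at h2)
    rw [if_neg hx, if_neg hx']

theorem cjg_one (R : Subgroup Y) : cjg 1 R = R := by
  ext y
  rw [mem_cjg]
  simp

theorem cjg_mul (g j : Y) (R : Subgroup Y) : cjg (g * j) R = cjg g (cjg j R) := by
  ext y
  rw [mem_cjg, mem_cjg, mem_cjg]
  have h : (g * j)⁻¹ * y * (g * j) = j⁻¹ * (g⁻¹ * y * g) * j := by group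
  rw [h]

/-- conjugation as an isomorphism of the centralisers -/
def cjE [hX : X.Normal] (g : Y) (R : Subgroup Y) : KR X R ≃* KR X (cjg g R) where
  toFun x := ⟨g * x * g⁻¹, KR_cjg x.2 g⟩
  invFun y := ⟨g⁻¹ * y * g, by
    have h := KR_cjg y.2 g⁻¹
    rwa [← cjg_mul, inv_mul_cancel, cjg_one, inv_inv] at h⟩
  left_inv x := Subtype.ext (by
    change g⁻¹ * (g * x * g⁻¹) * g = x
    group)
  right_inv x := Subtype.ext (by
    change g * (g⁻¹ * x * g) * g⁻¹ = x
    group)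
  map_mul' x y := Subtype.ext (by
    change g * (x * y) * g⁻¹ = (g * x * g⁻¹) * (g * y * g⁻¹)
    group)

/-- the complements -/
abbrev CR (p : ℕ) (X : Subgroup Y) : Type := {R : Subgroup Y // Cmp p X R}

/-- the action by conjugation on the complements -/
@[reducible] def actR [hX : X.Normal] : MulAction Y (CR p X) where
  smul g R := ⟨cjg g R.1, cmp_cjg R.2 g⟩
  one_smul R := Subtype.ext (cjg_one R.1)
  mul_smul g j R := Subtype.ext (cjg_mul g j R.1)

/-- conjugacy of complements -/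
def stR [hX : X.Normal] : Setoid (CR p X) where
  r a b := ∃ g : Y, cjg g a.1 = b.1
  iseqv := {
    refl := fun a => ⟨1, cjg_one _⟩
    symm := by
      rintro a b ⟨g, hg⟩
      exact ⟨g⁻¹, by rw [← hg, ← cjg_mul, inv_mul_cancel, cjg_one]⟩
    trans := by
      rintro a b c ⟨g, hg⟩ ⟨j, hj⟩
      exact ⟨j * g, by rw [cjg_mul, hg, hj]⟩ }

/-- the decomposition -/
theorem dec [hX : X.Normal] (hq : IsPGroup p (Y ⧸ X)) [Fintype (Quotient (stR (p := p) (X := X)))] :
    dzd p F X = ∑ c : Quotient (stR (p := p) (X := X)),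
      dzd p F (⊤ : Subgroup (KR X c.out.1)) := by
  set D : Submodule F (Y → F) := Submodule.span F {h : Y → F | ∃ f ∈ VS (F := F) (E0 p X) ⊤,
    ∃ g ∈ VS (F := F) (E0 p X) ⊤, h = prod0 p X f g} with hD
  let Dc : ∀ c : Quotient (stR (p := p) (X := X)), Submodule F (KR X c.out.1 → F) := fun c =>
    Submodule.span F {h : KR X c.out.1 → F |
      ∃ f ∈ VS (F := F) (E0 p (⊤ : Subgroup (KR X c.out.1))) ⊤,
      ∃ g ∈ VS (F := F) (E0 p (⊤ : Subgroup (KR X c.out.1))) ⊤, h = prod0 p ⊤ f g}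
  have hDV : D ≤ VS (F := F) (E0 p X) ⊤ := by
    rw [hD, Submodule.span_le]
    rintro _ ⟨f, hf, g, hg, rfl⟩
    exact prod0_VS hf hg
  have hres : ∀ c, ∀ v ∈ D, rs F (KR X c.out.1) v ∈ Dc c := by
    intro c
    have h1 : D ≤ (Dc c).comap (rs F (KR X c.out.1)) := by
      rw [hD, Submodule.span_le]
      rintro _ ⟨f, hf, g, hg, rfl⟩
      change rs F (KR X c.out.1) _ ∈ Dc c
      rw [rs_prod0 c.out.2 hf hg]
      exact Submodule.subset_span ⟨_, rs_VS c.out.2 hf, _, rs_VS c.out.2 hg, rfl⟩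
    exact h1
  let L : D →ₗ[F] ∀ c, Dc c := LinearMap.pi fun c => (rs F (KR X c.out.1)).restrict (hres c)
  have hL : ∀ (v : D) c, ((L v c : Dc c) : KR X c.out.1 → F) = rs F (KR X c.out.1) v :=
    fun v c => rfl
  have hinj : Function.Injective L := by
    rw [injective_iff_map_eq_zero]
    intro v hv
    have hvV := hDV v.2
    refine Subtype.ext (funext fun x => ?_)
    change (v : Y → F) x = 0
    by_cases hx : x ∈ E0 p X
    · obtain ⟨R, hR, hxR⟩ := exists_cmp hq hx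
      obtain ⟨g, hg⟩ : (stR (p := p) (X := X)).r
          (Quotient.mk (stR (p := p) (X := X)) ⟨R, hR⟩).out ⟨R, hR⟩ :=
        Quotient.mk_out (s := stR (p := p) (X := X)) (⟨R, hR⟩ : CR p X)
      have hg' : cjg g⁻¹ R = (Quotient.mk (stR (p := p) (X := X)) ⟨R, hR⟩).out.1 := by
        change cjg g _ = R at hg
        conv_lhs => rw [← hg]
        rw [← cjg_mul, inv_mul_cancel, cjg_one]
      have h1 := KR_cjg hxR g⁻¹
      rw [hg'] at h1
      have h2 := congrFun (congrArg Subtype.val (congrFun hv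
        (Quotient.mk (stR (p := p) (X := X)) ⟨R, hR⟩))) ⟨_, h1⟩
      have h3 : (v : Y → F) (g⁻¹ * x * g⁻¹⁻¹) = 0 := h2
      rwa [hvV.2 g⁻¹ trivial] at h3
    · exact hvV.1 x hx
  have hlift : ∀ c, ∀ d ∈ Dc c, ∃ v ∈ D, rs F (KR X c.out.1) v = d ∧
      ∀ c', c' ≠ c → rs F (KR X c'.out.1) v = 0 := by
    intro c d hd
    refine Submodule.span_induction (p := fun d _ => ∃ v ∈ D, rs F (KR X c.out.1) v = d ∧
      ∀ c', c' ≠ c → rs F (KR X c'.out.1) v = 0) ?_ ?_ ?_ ?_ hd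
    · rintro _ ⟨θ, hθ, η, hη, rfl⟩
      obtain ⟨f, hf, hf1, hf2⟩ := extend c.out.2 hθ
      obtain ⟨g, hg, hg1, hg2⟩ := extend c.out.2 hη
      refine ⟨prod0 p X f g, Submodule.subset_span ⟨f, hf, g, hg, rfl⟩, ?_, fun c' hc' => ?_⟩
      · rw [rs_prod0 c.out.2 hf hg, hf1, hg1]
      · have h1 : ∀ j : Y, cjg j c'.out.1 ≠ c.out.1 := by
          intro j hj
          apply hc'
          have h2 : Quotient.mk (stR (p := p) (X := X)) c'.out =
              Quotient.mk (stR (p := p) (X := X)) c.out := Quotient.sound ⟨j, hj⟩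
          rwa [Quotient.out_eq, Quotient.out_eq] at h2
        rw [rs_prod0 c'.out.2 hf hg, hf2 _ c'.out.2 h1]
        funext x
        unfold prod0 conv
        simp
    · exact ⟨0, D.zero_mem, map_zero _, fun _ _ => map_zero _⟩
    · rintro d1 d2 _ _ ⟨v1, hv1, h1, h1'⟩ ⟨v2, hv2, h2, h2'⟩
      exact ⟨v1 + v2, D.add_mem hv1 hv2, by rw [map_add, h1, h2],
        fun c' hc' => by rw [map_add, h1' c' hc', h2' c' hc', add_zero]⟩
    · rintro a d1 _ ⟨v1, hv1, h1, h1'⟩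
      exact ⟨a • v1, D.smul_mem a hv1, by rw [map_smul, h1],
        fun c' hc' => by rw [map_smul, h1' c' hc', smul_zero]⟩
  have hsurj : Function.Surjective L := by
    intro d
    choose v hv h1 h2 using fun c => hlift c (d c) (d c).2
    refine ⟨⟨∑ c, v c, D.sum_mem fun c _ => hv c⟩, ?_⟩
    funext c
    refine Subtype.ext ?_
    rw [hL]
    change rs F (KR X c.out.1) (∑ c, v c) = _
    rw [map_sum, Finset.sum_eq_single c (fun c' _ hc' => h2 c' c (Ne.symm hc'))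
      (fun h => absurd (Finset.mem_univ c) h), h1]
  have h1 : Module.finrank F D = Module.finrank F (∀ c, Dc c) :=
    (LinearEquiv.ofBijective L ⟨hinj, hsurj⟩).finrank_eq
  rw [Module.finrank_pi_fintype F] at h1
  exact h1

end main

/-- DGN2: the Brauer quotient decomposes over the complements -/
theorem dgn2 : S_DGN2 := by
  intro p _ F _ _ Y _ _ X hX hq
  have : Fintype (CR p X) := Fintype.ofFinite _
  have : Fintype (Quotient (stR (p := p) (X := X))) := Fintype.ofFinite _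
  have : Fintype (Subgroup Y) := Fintype.ofFinite _
  let _ : MulAction Y (CR p X) := actR
  have h1 := Pool.Agent.Y63.AWC.orbit_sum (G := Y) (stR (p := p) (X := X)) (by
    intro a b
    constructor
    · rintro ⟨g, hg⟩
      exact ⟨g, Subtype.ext hg⟩
    · rintro ⟨g, hg⟩
      exact ⟨g, congrArg Subtype.val hg⟩)
    (fun R : CR p X => dzd p F (⊤ : Subgroup (KR X R.1))) (by
      rintro a b ⟨g, hg⟩
      change dzd p F (⊤ : Subgroup (KR X a.1)) = dzd p F (⊤ : Subgroup (KR X b.1))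
      rw [dzd_congr (cjE g a.1), hg])
  rw [finsum_eq_sum_of_fintype] at h1
  rw [dec hq, h1, finsum_eq_sum_of_fintype, ← Finset.sum_filter,
    Finset.sum_subtype (p := fun R : Subgroup Y => Cmp p X R) _ (fun R => by
      rw [Finset.mem_filter, cmp_iff]
      exact ⟨fun h => h.2, fun h => ⟨Finset.mem_univ _, h⟩⟩)
      (fun R => Nat.card (Subgroup.normalizer (R : Set Y)) *
        dzd p F (⊤ : Subgroup ↥(X ⊓ Subgroup.centralizer (R : Set Y))))]
  refine Finset.sum_congr rfl fun R _ => ?_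
  congr 1
  refine Nat.card_congr (Equiv.subtypeEquivRight fun g => ?_)
  rw [MulAction.mem_stabilizer_iff, Subtype.ext_iff, Subgroup.mem_normalizer_iff]
  change cjg g R.1 = R.1 ↔ _
  constructor
  · intro h3 x
    conv_rhs => rw [← h3]
    rw [mem_cjg]
    have h4 : g⁻¹ * (g * x * g⁻¹) * g = x := by group
    rw [h4]
  · intro h3
    ext x
    rw [mem_cjg, h3]
    have h4 : g * (g⁻¹ * x * g) * g⁻¹ = x := by group
    rw [h4]

end Pool.Agent.Y77.NV

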