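import Mathlib

/-!
# The multiplicity of an eigenvalue of a diagonalisable operator on a subspace
-/

noncomputable section

namespace Pool.Agent.Y77.NV

/-- If `b` is a basis of `V` consisting of eigenvectors of `T`, then the multiplicity of the
eigenvalue `c` on `V` is the number of the vectors of `b` with eigenvalue `c`. -/
theorem count {F E ι : Type} [Field F] [AddCommGroup E] [Module F E]
    [Finite ι] (T : Module.End F E) (V : Submodule F E) (b : ι → E)
    (hb : LinearIndependent F b) (hV : V = Submodule.span F (Set.range b)) (lam : ι → F)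
    (hT : ∀ i, T (b i) = lam i • b i) (c : F) :
    Module.finrank F ↥(V ⊓ T.maxGenEigenspace c) = Nat.card {i // lam i = c} := by
  classical
  have : Fintype ι := Fintype.ofFinite ι
  have hpow : ∀ (k : ℕ) (i : ι), ((T - c • (1 : Module.End F E)) ^ k) (b i) =
      (lam i - c) ^ k • b i := by
    intro k
    induction k with
    | zero => intro i; simp
    | succ k ih =>
      intro i
      rw [pow_succ', Module.End.mul_apply, ih i, map_smul, LinearMap.sub_apply, hT i,
        LinearMap.smul_apply, Module.End.one_apply, ← sub_smul, smul_smul, pow_succ]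
  have heq : V ⊓ T.maxGenEigenspace c =
      Submodule.span F (Set.range (fun i : {i // lam i = c} => b i.1)) := by
    apply le_antisymm
    · rintro v ⟨hv1, hv2⟩
      have hv1' : v ∈ Submodule.span F (Set.range b) := by rw [← hV]; exact hv1
      obtain ⟨a, ha⟩ := (Submodule.mem_span_range_iff_exists_fun F).1 hv1'
      obtain ⟨k, hk⟩ := (Module.End.mem_maxGenEigenspace T c v).1 hv2
      rw [← ha, map_sum] at hk
      simp only [map_smul, hpow, smul_smul] at hk
      have h0 := Fintype.linearIndependent_iff.1 hb _ hk
      rw [← ha]
      refine Submodule.sum_mem _ fun i _ => ?_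
      by_cases hi : lam i = c
      · exact Submodule.smul_mem _ _ (Submodule.subset_span ⟨⟨i, hi⟩, rfl⟩)
      · have h1 : a i = 0 := by
          rcases mul_eq_zero.1 (h0 i) with h | h
          · exact h
          · exact absurd (sub_eq_zero.1 (eq_zero_of_pow_eq_zero h)) hi
        rw [h1, zero_smul]
        exact Submodule.zero_mem _
    · rw [Submodule.span_le]
      rintro _ ⟨i, rfl⟩
      refine ⟨?_, ?_⟩
      · rw [hV]
        exact Submodule.subset_span ⟨i.1, rfl⟩
      · refine (Module.End.mem_maxGenEigenspace T c _).2 ⟨1, ?_⟩
        rw [hpow, i.2, sub_self, pow_one, zero_smul]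
  rw [heq, Nat.card_eq_fintype_card]
  exact finrank_span_eq_card (hb.comp _ (Subtype.val_injective (p := fun i => lam i = c)))

end Pool.Agent.Y77.NV
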