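import Mathlib
import Pool.Agent.Y63.NV.Stm
import Pool.Agent.Y77.NV.Base
import Pool.Agent.Y77.NV.Count

/-!
# Navarro's conjecture for `p`-group extensions: the two bases of the Brauer quotient
-/

open scoped Classical

noncomputable section

namespace Pool.Agent.Y77.NV

open Pool.Agent.Y63.NV

variable {F : Type} [Field F]

theorem irr_conj {G : Type} [Group G] {φ : G → F} (h : IsIrrTrace φ) : IsClassFun φ := by
  obtain ⟨V, _, _, _, ρ, _, rfl⟩ := h
  intro g x
  exact ρ.char_conj x g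

theorem irr_comp {G : Type} [Group G] (e : G ≃* G) {φ : G → F} (h : IsIrrTrace φ) :
    IsIrrTrace (fun x => φ (e x)) := by
  obtain ⟨V, i1, i2, i3, ρ, h1, rfl⟩ := h
  let ρ' : Representation F G V := ρ.comp e.toMonoidHom
  refine ⟨V, i1, i2, i3, ρ', ?_, rfl⟩
  let o : Subrepresentation ρ' ≃o Subrepresentation ρ :=
    { toFun := fun s => ⟨s.toSubmodule, fun g v hv => by
        have h2 := s.apply_mem_toSubmodule (e.symm g) hv
        have h3 : ρ' (e.symm g) = ρ g := congrArg ρ (e.apply_symm_apply g)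
        rwa [h3] at h2⟩
      invFun := fun s => ⟨s.toSubmodule, fun g v hv => s.apply_mem_toSubmodule (e g) hv⟩
      left_inv := fun s => rfl
      right_inv := fun s => rfl
      map_rel_iff' := Iff.rfl }
  exact o.isSimpleOrder_iff.2 h1

/-- the irreducible traces -/
abbrev Irr (F : Type) [Field F] (G : Type) [Group G] : Type := {φ : G → F // IsIrrTrace φ}

section coef

variable [IsAlgClosed F] {G : Type} [Group G] [Finite G]

theorem irr_fin (h1 : S_IRR) : Finite (Irr F G) := (h1 F G).1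

theorem coef_unique (h1 : S_IRR) [Fintype (Irr F G)] (a b : Irr F G → F)
    (h : ∀ x, ∑ φ : Irr F G, a φ * φ.1 x = ∑ φ : Irr F G, b φ * φ.1 x) : a = b := by
  have h2 := Fintype.linearIndependent_iff.1 (h1 F G).2 (fun φ => a φ - b φ) (by
    funext x
    rw [Finset.sum_apply, Pi.zero_apply, ← sub_eq_zero.2 (h x), ← Finset.sum_sub_distrib]
    refine Finset.sum_congr rfl fun φ _ => ?_
    rw [Pi.smul_apply, smul_eq_mul, sub_mul])
  funext φ
  exact sub_eq_zero.1 (h2 φ)

theorem coef_ex (p : ℕ) [Fact p.Prime] [CharP F p] (h3 : S_SPAN) [Fintype (Irr F G)]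
    (f : G → F) (hf : IsClassFun f)
    (hf' : ∀ x : G, f (pp p x) = f x) : ∃ a : Irr F G → F, ∀ x, f x = ∑ φ : Irr F G, a φ * φ.1 x := by
  have h := h3 p F G f hf hf'
  have h4 : {φ : G → F | IsIrrTrace φ} = Set.range (fun φ : Irr F G => φ.1) :=
    (Subtype.range_coe (s := {φ : G → F | IsIrrTrace φ})).symm
  rw [h4] at h
  obtain ⟨a, ha⟩ := (Submodule.mem_span_range_iff_exists_fun F).1 h
  refine ⟨a, fun x => ?_⟩
  rw [← ha, Finset.sum_apply]
  rfl

/-- the action of an automorphism on the irreducible traces -/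
def act (e : G ≃* G) (φ : Irr F G) : Irr F G := ⟨fun x => φ.1 (e.symm x), irr_comp e.symm φ.2⟩

/-- the action as a permutation -/
def actE (e : G ≃* G) : Irr F G ≃ Irr F G where
  toFun := act e
  invFun := act e.symm
  left_inv φ := Subtype.ext (funext fun x => congrArg φ.1 (e.symm_apply_apply x))
  right_inv φ := Subtype.ext (funext fun x => congrArg φ.1 (e.apply_symm_apply x))

/-- the coefficients of a transported function -/
theorem coef_act (h1 : S_IRR) [Fintype (Irr F G)] (e : G ≃* G) (f g : G → F) (a b : Irr F G → F)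
    (ha : ∀ x, f x = ∑ φ : Irr F G, a φ * φ.1 x) (hb : ∀ x, g x = ∑ φ : Irr F G, b φ * φ.1 x)
    (h : ∀ x, g (e x) = f x) (φ : Irr F G) : b (act e φ) = a φ := by
  have h2 : (fun φ => b (act e φ)) = a := by
    refine coef_unique h1 _ _ fun x => ?_
    rw [← ha, ← h, hb, ← (actE e).sum_comp (fun φ => b φ * φ.1 (e x))]
    refine Finset.sum_congr rfl fun φ _ => ?_
    change b (act e φ) * φ.1 x = b (act e φ) * φ.1 (e.symm (e x))
    rw [e.symm_apply_apply]
  exact congrFun h2 φ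

end coef

section cj

variable {Γ : Type} [Group Γ]

/-- the conjugation by an element of `R` on the subgroup `N` normalised by `R` -/
def cj (N R : Subgroup Γ) (hR : ∀ r ∈ R, ∀ n ∈ N, r * n * r⁻¹ ∈ N) (r : R) : N ≃* N where
  toFun x := ⟨r * x * (r : Γ)⁻¹, hR r r.2 x x.2⟩
  invFun x := ⟨(r : Γ)⁻¹ * x * r, by
    have h := hR (r : Γ)⁻¹ (R.inv_mem r.2) x x.2
    rwa [inv_inv] at h⟩
  left_inv x := Subtype.ext (by
    change (r : Γ)⁻¹ * (r * x * (r : Γ)⁻¹) * r = x
    group)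
  right_inv x := Subtype.ext (by
    change (r : Γ) * ((r : Γ)⁻¹ * x * r) * (r : Γ)⁻¹ = x
    group)
  map_mul' x y := Subtype.ext (by
    change (r : Γ) * (x * y) * (r : Γ)⁻¹ = (r * x * (r : Γ)⁻¹) * (r * y * (r : Γ)⁻¹)
    group)

variable (N R : Subgroup Γ) (hR : ∀ r ∈ R, ∀ n ∈ N, r * n * r⁻¹ ∈ N)

theorem cj_coe (r : R) (x : N) : ((cj N R hR r x : N) : Γ) = r * x * (r : Γ)⁻¹ := rfl

theorem cj_symm_coe (r : R) (x : N) : (((cj N R hR r).symm x : N) : Γ) = (r : Γ)⁻¹ * x * r := rfl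

theorem act_one (φ : Irr F N) : act (cj N R hR 1) φ = φ := by
  refine Subtype.ext (funext fun x => congrArg φ.1 (Subtype.ext ?_))
  rw [cj_symm_coe]
  simp

theorem act_mul (r s : R) (φ : Irr F N) :
    act (cj N R hR (r * s)) φ = act (cj N R hR r) (act (cj N R hR s) φ) := by
  refine Subtype.ext (funext fun x => congrArg φ.1 (Subtype.ext ?_))
  rw [cj_symm_coe, cj_symm_coe, cj_symm_coe]
  simp [mul_assoc]

theorem cls_one (K : ConjClasses N) : ConjClasses.map (cj N R hR 1).toMonoidHom K = K := by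
  obtain ⟨x, rfl⟩ := ConjClasses.exists_rep K
  refine congrArg ConjClasses.mk (Subtype.ext ?_)
  change ((1 : R) : Γ) * x * ((1 : R) : Γ)⁻¹ = x
  simp

theorem cls_mul (r s : R) (K : ConjClasses N) : ConjClasses.map (cj N R hR (r * s)).toMonoidHom K =
    ConjClasses.map (cj N R hR r).toMonoidHom (ConjClasses.map (cj N R hR s).toMonoidHom K) := by
  obtain ⟨x, rfl⟩ := ConjClasses.exists_rep K
  refine congrArg ConjClasses.mk (Subtype.ext ?_)
  change ((r * s : R) : Γ) * x * ((r * s : R) : Γ)⁻¹ = r * (s * x * (s : Γ)⁻¹) * (r : Γ)⁻¹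
  simp [mul_assoc]

end cj

section main

variable {p : ℕ} [Fact p.Prime] [CharP F p] [IsAlgClosed F] {Γ : Type} [Group Γ] [Finite Γ]
  {N H : Subgroup Γ} {z : Γ → F}

/-- the restriction of `φ` to `S0`, extended by zero -/
def res (p : ℕ) (N H : Subgroup Γ) (φ : N → F) : Γ → F :=
  fun x => if h : x ∈ S0 p N H then φ ⟨x, h.1⟩ else 0

theorem S0_conj (hE : Ext p N H z) {x : Γ} (hx : x ∈ S0 p N H) {h : Γ} (hh : h ∈ H) :
    h * x * h⁻¹ ∈ S0 p N H := by
  refine ⟨hE.norm h hh x hx.1, ?_, ?_⟩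
  · have h1 : orderOf (h * x * h⁻¹) = orderOf x := by
      have h2 := orderOf_injective (MulAut.conj h).toMonoidHom (MulAut.conj h).injective x
      simpa using h2
    rw [h1]
    exact hx.2.1
  · intro k hk
    obtain ⟨n, hn, h2⟩ := hx.2.2 (k * h) (H.mul_mem hk hh)
    obtain ⟨m, hm, h3⟩ := hx.2.2 h hh
    refine ⟨n * m⁻¹, N.mul_mem hn (N.inv_mem hm), ?_⟩
    rw [h3]
    have h4 : k * (m * x * m⁻¹) * k⁻¹ = n * x * n⁻¹ := by
      rw [← h3, ← h2]
      group
    rw [h4]
    group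

theorem res_conj (hE : Ext p N H z) {φ : N → F} (hφ : IsInvUnder H φ) {h : Γ} (hh : h ∈ H)
    (x : Γ) : res p N H φ (h * x * h⁻¹) = res p N H φ x := by
  by_cases hx : x ∈ S0 p N H
  · have hx' := S0_conj hE hx hh
    rw [res, dif_pos hx', res, dif_pos hx]
    exact hφ h hh _ _ rfl
  · have hx' : ¬ h * x * h⁻¹ ∈ S0 p N H := fun h1 => hx (by
      have h2 := S0_conj hE h1 (H.inv_mem hh)
      have h3 : h⁻¹ * (h * x * h⁻¹) * h⁻¹⁻¹ = x := by group
      rwa [h3] at h2)
    rw [res, dif_neg hx', res, dif_neg hx]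

theorem res_mem (hE : Ext p N H z) {φ : N → F} (hφ : IsInvUnder H φ) :
    res p N H φ ∈ VS (F := F) (S0 p N H) H :=
  ⟨fun x hx => by rw [res, dif_neg hx], fun h hh x => res_conj hE hφ hh x⟩

/-- an element of `N` which is `p`-regular and centralised by `R` modulo `N`-conjugation is in
`S0` -/
theorem S0_of (hsup : ∀ h ∈ H, ∃ n ∈ N, ∃ r ∈ (R : Subgroup Γ), h = n * r) {y : Γ} (hy : y ∈ N)
    (hy2 : ¬ p ∣ orderOf y) (hy3 : ∀ r ∈ R, ∃ n ∈ N, r * y * r⁻¹ = n * y * n⁻¹) :
    y ∈ S0 p N H := by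
  refine ⟨hy, hy2, fun h hh => ?_⟩
  obtain ⟨n, hn, r, hr, rfl⟩ := hsup h hh
  obtain ⟨m, hm, h1⟩ := hy3 r hr
  refine ⟨n * m, N.mul_mem hn hm, ?_⟩
  have h2 : n * r * y * (n * r)⁻¹ = n * (r * y * r⁻¹) * n⁻¹ := by group
  rw [h2, h1]
  group

/-- the action on the restrictions -/
theorem claimB (hE : Ext p N H z) (h2 : S_PPT) (φ : Irr F N) (hφ : IsInvUnder H φ.1) {x : Γ}
    (hx : x ∈ S0 p N H) :
    ∑ᶠ g : Γ, z g * res p N H φ.1 (pp p (g * x)) =
      ∑ᶠ g : N, z g * φ.1 (g * ⟨x, hx.1⟩) := by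
  obtain ⟨R, hRC, hRp, hR⟩ := supl p (H ⊓ Subgroup.centralizer {x}) N
    (fun h hh n hn => hE.norm h hh.1 n hn) (fun h hh => hE.pq h hh.1)
  have hRH : R ≤ H := hRC.trans inf_le_left
  have hRx : ∀ r ∈ R, r * x = x * r := fun r hr =>
    Subgroup.mem_centralizer_singleton_iff.1 (hRC hr).2
  have hsup : ∀ h ∈ H, ∃ n ∈ N, ∃ r ∈ R, h = n * r := by
    intro h hh
    obtain ⟨n, hn, h3⟩ := hx.2.2 h hh
    have h4 : n⁻¹ * h ∈ H ⊓ Subgroup.centralizer {x} := by
      refine Subgroup.mem_inf.2 ⟨H.mul_mem (H.inv_mem (hE.le hn)) hh, ?_⟩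
      rw [Subgroup.mem_centralizer_singleton_iff]
      have h5 : h * x = n * x * n⁻¹ * h := by rw [← h3]; group
      rw [mul_assoc, h5]
      group
    obtain ⟨m, hm, r, hr, h6⟩ := hR _ h4
    refine ⟨n * m, N.mul_mem hn hm, r, hr, ?_⟩
    rw [mul_assoc, ← h6]
    group
  have : Fintype Γ := Fintype.ofFinite Γ
  let K : Γ → F := fun g => if h : g ∈ N then z g * φ.1 (⟨g, h⟩ * ⟨x, hx.1⟩) else 0
  have hK : ∑ᶠ g : N, z g * φ.1 (g * ⟨x, hx.1⟩) = ∑ g : Γ, K g := by
    rw [finsum_eq_sum_of_fintype]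
    have h3 : ∑ g : Γ, K g = ∑ g ∈ Finset.univ.filter (fun g => g ∈ N), K g := by
      refine (Finset.sum_filter_of_ne fun g _ hg => ?_).symm
      by_contra h
      exact hg (dif_neg h)
    rw [h3, Finset.sum_subtype (p := fun g => g ∈ N) _ (fun g => by simp) K]
    refine Finset.sum_congr rfl fun g _ => ?_
    change _ = K g
    simp only [K]
    rw [dif_pos g.2]
  rw [hK, finsum_eq_sum_of_fintype, ← sub_eq_zero, ← Finset.sum_sub_distrib]
  refine psum hRp (fun r g => r * g * (r : Γ)⁻¹) (fun g => by simp)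
    (fun r s g => by simp [mul_assoc]) _ ?_ ?_
  · intro r g
    have hrH : (r : Γ) ∈ H := hRH r.2
    have hc : (r : Γ) * g * (r : Γ)⁻¹ * x = r * (g * x) * (r : Γ)⁻¹ := by
      have h3 : (r : Γ)⁻¹ * x = x * (r : Γ)⁻¹ := hRx _ (R.inv_mem r.2)
      rw [mul_assoc, h3]
      group
    have hz : z (r * g * (r : Γ)⁻¹) = z g := hE.inv _ hrH g
    have h4 : res p N H φ.1 (pp p (r * g * (r : Γ)⁻¹ * x)) = res p N H φ.1 (pp p (g * x)) := by
      rw [hc, pp_conj, res_conj hE hφ hrH]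
    have h5 : K (r * g * (r : Γ)⁻¹) = K g := by
      by_cases hg : g ∈ N
      · have hg' : (r : Γ) * g * (r : Γ)⁻¹ ∈ N := hE.norm _ hrH g hg
        simp only [K, dif_pos hg, dif_pos hg', hz]
        congr 1
        exact hφ r hrH _ _ hc
      · have hg' : ¬ (r : Γ) * g * (r : Γ)⁻¹ ∈ N := fun h => hg (by
          have h6 := hE.norm _ (H.inv_mem hrH) _ h
          have h7 : (r : Γ)⁻¹ * (r * g * (r : Γ)⁻¹) * (r : Γ)⁻¹⁻¹ = g := by group
          rwa [h7] at h6)
        simp only [K, dif_neg hg, dif_neg hg']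
    rw [hz, h4, h5]
  · intro g hg
    by_cases hgN : g ∈ N
    · have hgx : g * x ∈ N := N.mul_mem hgN hx.1
      have hy : pp p (g * x) ∈ S0 p N H := by
        refine S0_of (R := R) hsup (pp_mem N hgx) (reg_pp _) fun r hr => ?_
        refine ⟨1, N.one_mem, ?_⟩
        rw [← pp_conj]
        have h3 : r * (g * x) * r⁻¹ = g * x := by
          have h4 : r * g * r⁻¹ = g := hg ⟨r, hr⟩
          have h5 := hRx r hr
          calc r * (g * x) * r⁻¹ = r * g * r⁻¹ * (r * x * r⁻¹) := by group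
            _ = g * x := by rw [h4, h5]; group
        rw [h3]
        simp
      have h6 : res p N H φ.1 (pp p (g * x)) = φ.1 (⟨g, hgN⟩ * ⟨x, hx.1⟩) := by
        have h7 : (⟨pp p (g * x), hy.1⟩ : N) = pp p ((⟨g, hgN⟩ : N) * ⟨x, hx.1⟩) :=
          Subtype.ext (pp_coe (p := p) N ((⟨g, hgN⟩ : N) * ⟨x, hx.1⟩)).symm
        rw [res, dif_pos hy, h7, h2 p F N φ.1 φ.2]
      rw [h6]
      simp only [K, dif_pos hgN, sub_self]
    · simp only [K, dif_neg hgN, hE.supp g hgN, zero_mul, sub_self]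

/-- `R`-invariant irreducible traces are `H`-invariant if `H = N R`, and conversely -/
theorem inv_iff {R : Subgroup Γ} (hE : Ext p N H z) (hRH : R ≤ H)
    (hsup : ∀ h ∈ H, ∃ n ∈ N, ∃ r ∈ R, h = n * r) (φ : Irr F N) :
    (∀ r : R, act (cj N R (fun r hr => hE.norm r (hRH hr)) r) φ = φ) ↔ IsInvUnder H φ.1 := by
  constructor
  · intro h k hk x y hxy
    obtain ⟨n, hn, r, hr, rfl⟩ := hsup k hk
    have h1 : y = ⟨n, hn⟩ * (cj N R (fun r hr => hE.norm r (hRH hr)) ⟨r, hr⟩ x) *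
        (⟨n, hn⟩ : N)⁻¹ := Subtype.ext (by
      rw [hxy]
      change n * r * x * (n * r)⁻¹ = n * (r * x * r⁻¹) * n⁻¹
      group)
    rw [h1, irr_conj φ.2]
    conv_lhs => rw [← h ⟨r, hr⟩]
    change φ.1 ((cj N R (fun r hr => hE.norm r (hRH hr)) ⟨r, hr⟩).symm _) = _
    rw [MulEquiv.symm_apply_apply]
  · intro h r
    refine Subtype.ext (funext fun x => ?_)
    change φ.1 ((cj N R (fun r hr => hE.norm r (hRH hr)) r).symm x) = φ.1 x
    refine (h r (hRH r.2) _ _ ?_).symm
    rw [cj_symm_coe]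
    group

/-- the restrictions of the invariant irreducible traces span -/
theorem claimD (hE : Ext p N H z) (h1 : S_IRR) (h3 : S_SPAN) {R : Subgroup Γ} (hRH : R ≤ H)
    (hRp : IsPGroup p R)
    (hsup : ∀ h ∈ H, ∃ n ∈ N, ∃ r ∈ R, h = n * r) (θ : Γ → F) (hθ : θ ∈ VS (F := F) (S0 p N H) H) :
    θ ∈ Submodule.span F (Set.range
      (fun φ : {φ : Irr F N // IsInvUnder H φ.1} => res p N H φ.1.1)) := by
  have : Finite (Irr F N) := irr_fin h1
  have : Fintype (Irr F N) := Fintype.ofFinite _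
  have : Fintype {φ : Irr F N // IsInvUnder H φ.1} := Fintype.ofFinite _
  obtain ⟨hθ1, hθ2⟩ := hθ
  obtain ⟨a, ha⟩ := coef_ex p h3 (fun y : N => θ (pp p (y : Γ))) (by
    intro g x
    change θ (pp p ((g : Γ) * x * (g : Γ)⁻¹)) = θ (pp p (x : Γ))
    rw [pp_conj, hθ2 g (hE.le g.2)]) (by
    intro x
    change θ (pp p ((pp p x : N) : Γ)) = θ (pp p (x : Γ))
    rw [pp_coe, pp_pp])
  have hinv : ∀ (r : R) (φ : Irr F N),
      a (act (cj N R (fun r hr => hE.norm r (hRH hr)) r) φ) = a φ := by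
    intro r φ
    refine coef_act h1 _ _ _ a a ha ha ?_ φ
    intro x
    change θ (pp p ((r : Γ) * x * (r : Γ)⁻¹)) = θ (pp p (x : Γ))
    rw [pp_conj, hθ2 r (hRH r.2)]
  have hpt : ∀ x ∈ S0 p N H, θ x = ∑ φ : {φ : Irr F N // IsInvUnder H φ.1},
      a φ.1 * res p N H φ.1.1 x := by
    intro x hx
    have h4 : θ x = ∑ φ : Irr F N, a φ * φ.1 ⟨x, hx.1⟩ := by
      rw [← ha ⟨x, hx.1⟩]
      change θ x = θ (pp p x)
      rw [pp_reg x hx.2.1]
    have h5 : ∑ φ : {φ : Irr F N // IsInvUnder H φ.1}, a φ.1 * res p N H φ.1.1 x =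
        ∑ φ : Irr F N, if IsInvUnder H φ.1 then a φ * φ.1 ⟨x, hx.1⟩ else 0 := by
      rw [← Finset.sum_filter, Finset.sum_subtype (p := fun φ : Irr F N => IsInvUnder H φ.1) _
        (fun φ => by simp) (fun φ => a φ * φ.1 ⟨x, hx.1⟩)]
      refine Finset.sum_congr rfl fun φ _ => ?_
      rw [res, dif_pos hx]
    rw [h4, h5, ← sub_eq_zero, ← Finset.sum_sub_distrib]
    refine psum hRp (fun r φ => act (cj N R (fun r hr => hE.norm r (hRH hr)) r) φ)
      (act_one N R _) (act_mul N R _) _ ?_ ?_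
    · intro r φ
      have h6 : ∀ ψ : Irr F N, (act (cj N R (fun r hr => hE.norm r (hRH hr)) r) ψ).1 ⟨x, hx.1⟩ =
          ψ.1 ⟨x, hx.1⟩ := by
        intro ψ
        change ψ.1 ((cj N R (fun r hr => hE.norm r (hRH hr)) r).symm ⟨x, hx.1⟩) = _
        obtain ⟨n, hn, h7⟩ := hx.2.2 (r : Γ)⁻¹ (H.inv_mem (hRH r.2))
        have h8 : (cj N R (fun r hr => hE.norm r (hRH hr)) r).symm ⟨x, hx.1⟩ =
            ⟨n, hn⟩ * ⟨x, hx.1⟩ * (⟨n, hn⟩ : N)⁻¹ := Subtype.ext (by
          rw [cj_symm_coe]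
          change (r : Γ)⁻¹ * x * r = n * x * n⁻¹
          rw [← h7, inv_inv])
        rw [h8, irr_conj ψ.2]
      have h9 : IsInvUnder H (act (cj N R (fun r hr => hE.norm r (hRH hr)) r) φ).1 ↔
          IsInvUnder H φ.1 := by
        constructor
        · intro h
          have h10 := (inv_iff hE hRH hsup _).2 h r⁻¹
          rw [← act_mul, inv_mul_cancel, act_one] at h10
          rw [← h10] at h
          exact h
        · intro h
          rw [(inv_iff hE hRH hsup φ).2 h r]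
          exact h
      rw [h6, hinv]
      by_cases hi : IsInvUnder H φ.1
      · rw [if_pos hi, if_pos (h9.2 hi)]
      · rw [if_neg hi, if_neg (fun h => hi (h9.1 h))]
    · intro φ hφ
      rw [if_pos ((inv_iff hE hRH hsup φ).1 hφ), sub_self]
  have hθ' : θ = ∑ φ : {φ : Irr F N // IsInvUnder H φ.1}, a φ.1 • res p N H φ.1.1 := by
    funext x
    rw [Finset.sum_apply]
    by_cases hx : x ∈ S0 p N H
    · rw [hpt x hx]
      rfl
    · rw [hθ1 x hx]
      refine (Finset.sum_eq_zero fun φ _ => ?_).symm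
      rw [Pi.smul_apply, res, dif_neg hx, smul_zero]
  rw [hθ']
  exact Submodule.sum_mem _ fun φ _ => Submodule.smul_mem _ _ (Submodule.subset_span ⟨φ, rfl⟩)

/-- the restrictions of the invariant irreducible traces are linearly independent -/
theorem claimC (hE : Ext p N H z) (h1 : S_IRR) (h2 : S_PPT) (h3 : S_SPAN) {R : Subgroup Γ}
    (hRH : R ≤ H) (hRp : IsPGroup p R)
    (hsup : ∀ h ∈ H, ∃ n ∈ N, ∃ r ∈ R, h = n * r) :
    LinearIndependent F
      (fun φ : {φ : Irr F N // IsInvUnder H φ.1} => res p N H φ.1.1) := by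
  have : Finite (Irr F N) := irr_fin h1
  have : Fintype (Irr F N) := Fintype.ofFinite _
  have : Fintype {φ : Irr F N // IsInvUnder H φ.1} := Fintype.ofFinite _
  have : Fintype (ConjClasses N) := Fintype.ofFinite _
  rw [Fintype.linearIndependent_iff]
  intro a ha ψ
  let a' : Irr F N → F := fun φ => if h : IsInvUnder H φ.1 then a ⟨φ, h⟩ else 0
  let f : N → F := fun y => ∑ φ : Irr F N, a' φ * φ.1 y
  have hfc : ∀ x y : N, IsConj x y → f x = f y := by
    intro x y h
    obtain ⟨c, rfl⟩ := isConj_iff.1 h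
    exact Finset.sum_congr rfl fun φ _ => by rw [irr_conj φ.2]
  have hfp : ∀ y : N, f (pp p y) = f y := fun y =>
    Finset.sum_congr rfl fun φ _ => by rw [h2 p F N φ.1 φ.2]
  have hfr : ∀ (r : R) (y : N), f (cj N R (fun r hr => hE.norm r (hRH hr)) r y) = f y := by
    intro r y
    refine Finset.sum_congr rfl fun φ _ => ?_
    by_cases hi : IsInvUnder H φ.1
    · rw [hi r (hRH r.2) y _ rfl]
    · simp only [a', dif_neg hi, zero_mul]
  have hf0 : ∀ y : N, (y : Γ) ∈ S0 p N H → f y = 0 := by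
    intro y hy
    have h4 := congrFun ha (y : Γ)
    rw [Finset.sum_apply, Pi.zero_apply] at h4
    rw [← h4]
    have h5 : f y = ∑ φ ∈ Finset.univ.filter (fun φ : Irr F N => IsInvUnder H φ.1),
        a' φ * φ.1 y := by
      refine (Finset.sum_filter_of_ne fun φ _ hφ => ?_).symm
      by_contra h
      exact hφ (by simp only [a', dif_neg h, zero_mul])
    rw [h5, Finset.sum_subtype (p := fun φ : Irr F N => IsInvUnder H φ.1) _
        (fun φ => by simp) (fun φ => a' φ * φ.1 y)]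
    refine Finset.sum_congr rfl fun φ _ => ?_
    rw [Pi.smul_apply, res, dif_pos hy, smul_eq_mul]
    simp only [a', dif_pos φ.2]
  let fc : ConjClasses N → F := Quotient.lift f hfc
  let e : ConjClasses N → N → F := fun K y => if ConjClasses.mk (pp p y) = K then 1 else 0
  have he : ∀ K, ∃ b : Irr F N → F, ∀ x, e K x = ∑ φ : Irr F N, b φ * φ.1 x := by
    intro K
    refine coef_ex p h3 (e K) ?_ ?_
    · intro g x
      have h4 : ConjClasses.mk (pp p (g * x * g⁻¹)) = ConjClasses.mk (pp p x) := by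
        rw [pp_conj]
        exact ConjClasses.mk_eq_mk_iff_isConj.2 (isConj_iff.2 ⟨g, rfl⟩).symm
      simp only [e, h4]
    · intro x
      simp only [e, pp_pp]
  choose b hb using he
  have hfe : ∀ y, f y = ∑ φ : Irr F N, (∑ K : ConjClasses N, fc K * b K φ) * φ.1 y := by
    intro y
    have h4 : f y = ∑ K : ConjClasses N, fc K * e K y := by
      rw [Finset.sum_eq_single (ConjClasses.mk (pp p y))]
      · simp only [e, if_true, mul_one]
        exact (hfp y).symm
      · intro K _ hK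
        simp only [e, if_neg (Ne.symm hK), mul_zero]
      · intro h
        exact absurd (Finset.mem_univ _) h
    rw [h4]
    simp only [hb, Finset.mul_sum, Finset.sum_mul]
    rw [Finset.sum_comm]
    refine Finset.sum_congr rfl fun φ _ => Finset.sum_congr rfl fun K _ => ?_
    rw [mul_assoc]
  have haf : a' = fun φ => ∑ K : ConjClasses N, fc K * b K φ := coef_unique h1 _ _ hfe
  have h6 : a ψ = ∑ K : ConjClasses N, fc K * b K ψ.1 := by
    rw [← congrFun haf ψ.1]
    simp only [a', dif_pos ψ.2]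
  rw [h6]
  have hmk : ∀ (r : R) (x : N), ConjClasses.map
      (cj N R (fun r hr => hE.norm r (hRH hr)) r).toMonoidHom (ConjClasses.mk x) =
      ConjClasses.mk (cj N R (fun r hr => hE.norm r (hRH hr)) r x) := fun r x => rfl
  have hinj : ∀ (r : R) (K L : ConjClasses N), ConjClasses.map
      (cj N R (fun r hr => hE.norm r (hRH hr)) r).toMonoidHom K =
      ConjClasses.map (cj N R (fun r hr => hE.norm r (hRH hr)) r).toMonoidHom L → K = L := by
    intro r K L h
    have h7 := congrArg (ConjClasses.map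
      (cj N R (fun r hr => hE.norm r (hRH hr)) r⁻¹).toMonoidHom) h
    rwa [← cls_mul, ← cls_mul, inv_mul_cancel, cls_one, cls_one] at h7
  refine psum hRp (fun r K => ConjClasses.map
    (cj N R (fun r hr => hE.norm r (hRH hr)) r).toMonoidHom K) (cls_one N R _) (cls_mul N R _) _
    ?_ ?_
  · intro r K
    have h7 : fc (ConjClasses.map (cj N R (fun r hr => hE.norm r (hRH hr)) r).toMonoidHom K) =
        fc K := by
      obtain ⟨y, rfl⟩ := ConjClasses.exists_rep K
      exact hfr r y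
    have h8 := coef_act h1 (cj N R (fun r hr => hE.norm r (hRH hr)) r) (e K)
      (e (ConjClasses.map (cj N R (fun r hr => hE.norm r (hRH hr)) r).toMonoidHom K)) _ _
      (hb K) (hb _) (by
        intro x
        have h9 : pp p (cj N R (fun r hr => hE.norm r (hRH hr)) r x) =
            cj N R (fun r hr => hE.norm r (hRH hr)) r (pp p x) := by
          unfold pp
          rw [map_pow]
        simp only [e]
        rw [h9, ← hmk]
        by_cases hx : ConjClasses.mk (pp p x) = K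
        · rw [if_pos hx, if_pos (by rw [hx])]
        · rw [if_neg hx, if_neg fun h => hx (hinj r _ _ h)]) ψ.1
    rw [(inv_iff hE hRH hsup ψ.1).2 ψ.2 r] at h8
    rw [h7, h8]
  · intro K hK
    obtain ⟨y, rfl⟩ := ConjClasses.exists_rep K
    have h7 : fc (ConjClasses.mk y) = 0 := by
      change f y = 0
      rw [← hfp y]
      refine hf0 _ ?_
      rw [pp_coe]
      refine S0_of (R := R) hsup (pp_mem N y.2) (reg_pp _) fun r hr => ?_
      have h8 := hK ⟨r, hr⟩
      rw [hmk, ConjClasses.mk_eq_mk_iff_isConj, isConj_iff] at h8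
      obtain ⟨c, hc⟩ := h8
      refine ⟨(c : Γ)⁻¹, N.inv_mem c.2, ?_⟩
      have h9 : (c : Γ) * (r * y * r⁻¹) * (c : Γ)⁻¹ = y := congrArg Subtype.val hc
      rw [← pp_conj, ← pp_conj]
      congr 1
      conv_rhs => rw [← h9]
      group
    rw [h7, zero_mul]

/-- BRQ: the two bases of the Brauer quotient -/
theorem brq (h1 : S_IRR) (h2 : S_PPT) (h3 : S_SPAN) (h4 : S_SCHUR) : S_BRQ := by
  intro p _ F _ _ _ Γ _ _ N H z hE c
  obtain ⟨R, hRH, hRp, hsup⟩ := supl p H N hE.norm hE.pq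
  have hz : IsClassFun (fun g : N => z g) := fun g x => hE.inv g (hE.le g.2) x
  have h5 : ∀ φ : {φ : Irr F N // IsInvUnder H φ.1}, ∃ l : F, ∀ x : N,
      ∑ᶠ g : N, z g * φ.1.1 (g * x) = l * φ.1.1 x := by
    intro φ
    obtain ⟨_, B, _, hB⟩ := h4 F N φ.1.1 φ.1.2
    exact ⟨B (fun g : N => z g), hB _ hz⟩
  choose lam hlam using h5
  have : Finite (Irr F N) := irr_fin h1
  have h6 : gm p z (S0 p N H) H c = Nat.card {φ // lam φ = c} := by
    refine count (Top p z (S0 p N H)) (VS (S0 p N H) H) _ (claimC hE h1 h2 h3 hRH hRp hsup) ?_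
      lam ?_ c
    · apply le_antisymm
      · exact claimD hE h1 h3 hRH hRp hsup
      · rw [Submodule.span_le]
        rintro _ ⟨φ, rfl⟩
        exact res_mem hE φ.2
    · intro φ
      funext x
      change Tfun p z (S0 p N H) (res p N H φ.1.1) x = lam φ * res p N H φ.1.1 x
      by_cases hx : x ∈ S0 p N H
      · rw [Tfun, if_pos hx, claimB hE h2 φ.1 φ.2 hx, hlam, res, dif_pos hx]
      · rw [Tfun, if_neg hx, res, dif_neg hx, mul_zero]
  rw [h6]
  refine Nat.card_congr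
    { toFun := fun φ => ⟨⟨⟨φ.1, φ.2.1⟩, φ.2.2.1⟩, ?_⟩
      invFun := fun φ => ⟨φ.1.1.1, φ.1.1.2, φ.1.2, fun x => by rw [hlam, φ.2]⟩
      left_inv := fun φ => rfl
      right_inv := fun φ => rfl }
  obtain ⟨x, hx⟩ := (h4 F N φ.1 φ.2.1).1
  have h7 := φ.2.2.2 x
  have h8 := hlam ⟨⟨φ.1, φ.2.1⟩, φ.2.2.1⟩ x
  exact mul_right_cancel₀ hx (h8.symm.trans h7)

end main

end Pool.Agent.Y77.NV

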