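import Mathlib
import Pool.Agent.Y63.NV.Stm4
import Pool.Agent.Y77.NV.Orb
import Pool.Agent.Y914.NV.Irr
import Pool.Agent.Y705.NV.Ppt
import Pool.Agent.Y705.NV.Nil
import Pool.Agent.Y275.NV.Wed
import Pool.Agent.Y705.NV.Schur

/-!
# Irreducible traces and normal subgroups of index `p`
-/

open scoped Classical

noncomputable section

namespace Pool.Agent.Y77.NV

open Pool.Agent.Y63.NV

variable {F : Type} [Field F]

section act

variable {Γ : Type} [Group Γ] [Finite Γ]

/-- the counting of the fixed points of the elements -/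
theorem burn {X : Type} [Finite X] [MulAction Γ X] {p : ℕ} (hp : p.Prime) (G : Subgroup Γ)
    (hi : G.index = p) (hG : ∀ g ∈ G, ∀ x : X, g • x = x) :
    (Nat.card Γ : ℤ) * Nat.card (Quotient (MulAction.orbitRel Γ X)) =
      Nat.card G * Nat.card X +
        (Nat.card Γ - Nat.card G) * Nat.card (MulAction.fixedPoints Γ X) := by
  have : Fintype Γ := Fintype.ofFinite _
  have : Fintype X := Fintype.ofFinite _
  have : Fintype (Quotient (MulAction.orbitRel Γ X)) := Fintype.ofFinite _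
  have hfix : ∀ γ : Γ, γ ∉ G → MulAction.fixedBy X γ = MulAction.fixedPoints Γ X := by
    intro γ hγ
    ext x
    constructor
    · intro hx
      have h1 : G ≤ MulAction.stabilizer Γ x := fun g hg => hG g hg x
      have h2 := Subgroup.relIndex_mul_index h1
      rw [hi] at h2
      have h3 : MulAction.stabilizer Γ x = ⊤ := by
        rcases (Nat.dvd_prime hp).1 (Dvd.intro _ h2) with h | h
        · exact absurd (Subgroup.relIndex_eq_one.1 h (show γ ∈ MulAction.stabilizer Γ x from hx)) hγ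
        · rw [h] at h2
          exact Subgroup.index_eq_one.1 (Nat.eq_of_mul_eq_mul_left hp.pos (by rw [h2, mul_one]))
      intro δ
      have h4 : δ ∈ MulAction.stabilizer Γ x := by rw [h3]; trivial
      exact h4
    · intro hx
      exact hx γ
  have hfix' : ∀ γ : Γ, γ ∈ G → Nat.card (MulAction.fixedBy X γ) = Nat.card X := by
    intro γ hγ
    have h : MulAction.fixedBy X γ = Set.univ := by
      ext x
      exact ⟨fun _ => trivial, fun _ => hG γ hγ x⟩
    rw [h, Nat.card_univ]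
  have h := MulAction.sum_card_fixedBy_eq_card_orbits_mul_card_group Γ X
  have h5 : ∑ γ : Γ, (Nat.card (MulAction.fixedBy X γ) : ℤ) =
      Nat.card (Quotient (MulAction.orbitRel Γ X)) * Nat.card Γ := by
    rw [Nat.card_eq_fintype_card, Nat.card_eq_fintype_card]
    have h6 := congrArg (Nat.cast : ℕ → ℤ) h
    push_cast at h6
    rw [← h6]
    exact Finset.sum_congr rfl fun γ _ => by rw [Nat.card_eq_fintype_card]
  rw [mul_comm, ← h5]
  have h7 : ∀ γ : Γ, (Nat.card (MulAction.fixedBy X γ) : ℤ) =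
      Nat.card (MulAction.fixedPoints Γ X) +
        if γ ∈ G then ((Nat.card X : ℤ) - Nat.card (MulAction.fixedPoints Γ X)) else 0 := by
    intro γ
    by_cases hγ : γ ∈ G
    · rw [if_pos hγ, hfix' γ hγ]
      ring
    · rw [if_neg hγ, hfix γ hγ, add_zero]
  rw [Finset.sum_congr rfl fun γ _ => h7 γ, Finset.sum_add_distrib, Finset.sum_const,
    Finset.card_univ, ← Finset.sum_filter, Finset.sum_const, nsmul_eq_mul, nsmul_eq_mul,
    ← Nat.card_eq_fintype_card, ← Fintype.card_subtype, ← Nat.card_eq_fintype_card]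
  change (Nat.card Γ : ℤ) * _ + (Nat.card G : ℤ) * _ = _
  ring

end act

section main

variable {p : ℕ} [Fact p.Prime] [CharP F p] [IsAlgClosed F] {Γ : Type} [Group Γ] [Finite Γ]

omit [Finite Γ] in
theorem reg_mem (G : Subgroup Γ) [G.Normal] (hi : Nat.card (Γ ⧸ G) = p) (x : Γ)
    (hx : ¬ p ∣ orderOf x) : x ∈ G := by
  have hp : p.Prime := Fact.out
  have h1 : orderOf (QuotientGroup.mk' G x) ∣ orderOf x := orderOf_map_dvd _ _
  have h2 : orderOf (QuotientGroup.mk' G x) ∣ p := hi ▸ orderOf_dvd_natCard _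
  rcases (Nat.dvd_prime hp).1 h2 with h | h
  · exact (QuotientGroup.eq_one_iff x).1 (orderOf_eq_one_iff.1 h)
  · exact absurd (h ▸ h1) hx

/-- the orbits on the irreducible traces -/
theorem orbits (h1 : S_IRR) (h2 : S_PPT) (h3 : S_SPAN) (h4 : S_SCHUR)
    (G : Subgroup Γ) [G.Normal] (z : Γ → F) (c : F) (hz : InZ G z)
    (hi : Nat.card (Γ ⧸ G) = p) :
    letI := actX G z c hz
    Lnum (⊤ : Subgroup Γ) ⊤ z c = Nat.card (Quotient (MulAction.orbitRel Γ (XX G z c))) := by
  let _ := actX G z c hz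
  have hET : Ext p (⊤ : Subgroup Γ) ⊤ z :=
    ⟨le_rfl, fun _ _ _ _ => trivial, fun _ _ => ⟨0, trivial⟩, fun h _ x => hz.conj h x,
      fun x hx => absurd trivial hx⟩
  have hEG : Ext p G G z :=
    ⟨le_rfl, fun _ hh _ hn => G.mul_mem (G.mul_mem hh hn) (G.inv_mem hh),
      fun h hh => ⟨0, by rwa [pow_zero, pow_one]⟩, fun h _ x => hz.conj h x, hz.supp⟩
  have hS : S0 p (⊤ : Subgroup Γ) ⊤ = S0 p G G := by
    ext x
    constructor
    · rintro ⟨_, hx, _⟩
      exact ⟨reg_mem G hi x hx, hx, fun h hh => ⟨h, hh, rfl⟩⟩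
    · rintro ⟨_, hx, _⟩
      exact ⟨trivial, hx, fun h _ => ⟨h, trivial, rfl⟩⟩
  rw [brq h1 h2 h3 h4 p F Γ ⊤ ⊤ z hET c, hS]
  have : Finite (Irr F G) := irr_fin h1
  have : Fintype (Irr F G) := Fintype.ofFinite _
  have hsup : ∀ h ∈ G, ∃ n ∈ G, ∃ r ∈ (⊥ : Subgroup Γ), h = n * r := fun h hh =>
    ⟨h, hh, 1, Subgroup.one_mem _, by rw [mul_one]⟩
  have hbot : IsPGroup p (⊥ : Subgroup Γ) := IsPGroup.of_bot
  have hinv : ∀ φ : Irr F G, IsInvUnder G φ.1 := by
    intro φ h hh x y hxy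
    have h5 : y = ⟨h, hh⟩ * x * (⟨h, hh⟩ : G)⁻¹ := Subtype.ext hxy
    rw [h5, irr_conj φ.2]
  have hli : LinearIndependent F (fun φ : Irr F G => res p G G φ.1) :=
    (claimC hEG h1 h2 h3 bot_le hbot hsup).comp (fun φ : Irr F G => ⟨φ, hinv φ⟩)
      (fun a b h => congrArg Subtype.val h)
  have hsp : VS (F := F) (S0 p G G) G =
      Submodule.span F (Set.range (fun φ : Irr F G => res p G G φ.1)) := by
    apply le_antisymm
    · intro θ hθ
      refine Submodule.span_mono ?_ (claimD hEG h1 h3 bot_le hbot hsup θ hθ)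
      rintro _ ⟨φ, rfl⟩
      exact ⟨φ.1, rfl⟩
    · rw [Submodule.span_le]
      rintro _ ⟨φ, rfl⟩
      exact res_mem hEG (hinv φ)
  have hzc : IsClassFun (fun g : G => z g) := fun g x => hz.conj g x
  have h5 : ∀ φ : Irr F G, ∃ l : F, ∀ x : G, ∑ᶠ g : G, z g * φ.1 (g * x) = l * φ.1 x := by
    intro φ
    obtain ⟨_, B, _, hB⟩ := h4 F G φ.1 φ.2
    exact ⟨B (fun g : G => z g), hB _ hzc⟩
  choose lam hlam using h5
  have hne : ∀ φ : Irr F G, ∃ x, φ.1 x ≠ 0 := fun φ => (h4 F G φ.1 φ.2).1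
  have hlamc : ∀ φ : Irr F G, lam φ = c ↔ ∀ x : G, ∑ᶠ g : G, z g * φ.1 (g * x) = c * φ.1 x := by
    intro φ
    constructor
    · intro h x
      rw [hlam, h]
    · intro h
      obtain ⟨x, hx⟩ := hne φ
      exact mul_right_cancel₀ hx ((hlam φ x).symm.trans (h x))
  set T := Top p z (S0 p G G) with hT
  have hTb : ∀ φ : Irr F G, T (res p G G φ.1) = lam φ • res p G G φ.1 := by
    intro φ
    funext x
    change Tfun p z (S0 p G G) (res p G G φ.1) x = lam φ * res p G G φ.1 x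
    by_cases hx : x ∈ S0 p G G
    · rw [Tfun, if_pos hx, claimB hEG h2 φ (hinv φ) hx, hlam, res, dif_pos hx]
    · rw [Tfun, if_neg hx, res, dif_neg hx, mul_zero]
  have hpow : ∀ (k : ℕ) (φ : Irr F G), ((T - c • (1 : Module.End F (Γ → F))) ^ k)
      (res p G G φ.1) = (lam φ - c) ^ k • res p G G φ.1 := by
    intro k
    induction k with
    | zero => intro i; simp
    | succ k ih =>
      intro i
      rw [pow_succ', Module.End.mul_apply, ih i, map_smul, LinearMap.sub_apply, hTb i,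
        LinearMap.smul_apply, Module.End.one_apply, ← sub_smul, smul_smul, pow_succ]
  let cjL : Γ → (Γ → F) →ₗ[F] (Γ → F) := fun γ => LinearMap.funLeft F F (fun x => γ⁻¹ * x * γ)
  have hcj : ∀ γ θ x, cjL γ θ x = θ (γ⁻¹ * x * γ) := fun _ _ _ => rfl
  have hS0c : ∀ (γ x : Γ), γ⁻¹ * x * γ ∈ S0 p G G ↔ x ∈ S0 p G G := by
    intro γ x
    rw [← hS]
    constructor
    · intro hx
      have h6 := S0_conj hET hx (h := γ) trivial
      have h7 : γ * (γ⁻¹ * x * γ) * γ⁻¹ = x := by group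
      rwa [h7] at h6
    · intro hx
      have h6 := S0_conj hET hx (h := γ⁻¹) trivial
      rwa [inv_inv] at h6
  have hres : ∀ (γ : Γ) (φ : XX G z c), cjL γ (res p G G φ.1.1) =
      res p G G (γ • φ).1.1 := by
    intro γ φ
    funext x
    rw [hcj]
    by_cases hx : x ∈ S0 p G G
    · have hx' := (hS0c γ x).2 hx
      rw [res, dif_pos hx', res, dif_pos hx]
      change _ = φ.1.1 ((MulAut.conjNormal γ).symm ⟨x, hx.1⟩)
      refine congrArg φ.1.1 (Subtype.ext ?_)
      rw [MulAut.conjNormal_symm_apply]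
    · have hx' : ¬ γ⁻¹ * x * γ ∈ S0 p G G := fun h => hx ((hS0c γ x).1 h)
      rw [res, dif_neg hx', res, dif_neg hx]
  refine orb (Γ := Γ) (ι := XX G z c) cjL _ (fun φ => res p G G φ.1.1)
    (hli.comp _ (Subtype.val_injective (p := fun φ : Irr F G =>
      ∀ x : G, ∑ᶠ g : G, z g * φ.1 (g * x) = c * φ.1 x))) hres ?_
  intro v
  constructor
  · rintro ⟨hv1, hv2⟩
    have hv3 : ∀ γ, cjL γ v = v := by
      intro γ
      funext x
      rw [hcj]
      have h6 := hv1.2 γ⁻¹ trivial x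
      rwa [inv_inv] at h6
    refine ⟨?_, hv3⟩
    have hv4 : v ∈ VS (F := F) (S0 p G G) G := ⟨hv1.1, fun j _ x => hv1.2 j trivial x⟩
    rw [hsp] at hv4
    obtain ⟨a, rfl⟩ := (Submodule.mem_span_range_iff_exists_fun F).1 hv4
    obtain ⟨k, hk⟩ := (Module.End.mem_maxGenEigenspace T c _).1 hv2
    rw [map_sum] at hk
    simp only [map_smul, hpow, smul_smul] at hk
    have h0 := Fintype.linearIndependent_iff.1 hli _ hk
    refine Submodule.sum_mem _ fun i _ => ?_
    by_cases hi : lam i = c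
    · exact Submodule.smul_mem _ _ (Submodule.subset_span ⟨⟨i, (hlamc i).1 hi⟩, rfl⟩)
    · have h1 : a i = 0 := by
        rcases mul_eq_zero.1 (h0 i) with h | h
        · exact h
        · exact absurd (sub_eq_zero.1 (eq_zero_of_pow_eq_zero h)) hi
      rw [h1, zero_smul]
      exact Submodule.zero_mem _
  · rintro ⟨hv1, hv2⟩
    have hv3 : v ∈ VS (F := F) (S0 p G G) G ⊓ T.maxGenEigenspace c := by
      refine (Submodule.span_le.2 ?_) hv1
      rintro _ ⟨φ, rfl⟩
      refine ⟨res_mem hEG (hinv φ.1), ?_⟩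
      refine (Module.End.mem_maxGenEigenspace T c _).2 ⟨1, ?_⟩
      rw [hpow, (hlamc φ.1).2 φ.2, sub_self, pow_one, zero_smul]
    refine ⟨⟨hv3.1.1, fun j _ x => ?_⟩, hv3.2⟩
    have h6 := congrFun (hv2 j⁻¹) x
    rw [hcj, inv_inv] at h6
    exact h6

/-- PELL: irreducible traces and normal subgroups of index `p` -/
theorem pell_of (h1 : S_IRR) (h2 : S_PPT) (h3 : S_SPAN) (h4 : S_SCHUR) : S_PELL := by
  intro p _ F _ _ _ Γ _ _ G _ z c hi hz
  have hp : p.Prime := Fact.out
  let _ := actX G z c hz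
  have : Finite (Irr F G) := irr_fin h1
  have hb := burn (X := XX G z c) hp G hi (by
    intro g hg φ
    refine Subtype.ext (Subtype.ext (funext fun x => ?_))
    change φ.1.1 ((MulAut.conjNormal g).symm x) = φ.1.1 x
    have h5 : (MulAut.conjNormal g).symm x = (⟨g, hg⟩ : G)⁻¹ * x * (⟨g, hg⟩ : G)⁻¹⁻¹ := by
      refine Subtype.ext ?_
      rw [MulAut.conjNormal_symm_apply, inv_inv]
      rfl
    rw [h5, irr_conj φ.1.2])
  rw [← orbits h1 h2 h3 h4 G z c hz hi] at hb
  have hG : Lnum (⊤ : Subgroup G) ⊤ (fun x => z x) c = Nat.card (XX G z c) := Lnum_top _ _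
  have hI : Lnum G ⊤ z c = Nat.card (MulAction.fixedPoints Γ (XX G z c)) := by
    refine Nat.card_congr
      { toFun := fun φ => ⟨⟨⟨φ.1, φ.2.1⟩, φ.2.2.2⟩, ?_⟩
        invFun := fun φ => ⟨φ.1.1.1, φ.1.1.2, ?_, φ.1.2⟩
        left_inv := fun φ => rfl
        right_inv := fun φ => rfl }
    · intro γ
      refine Subtype.ext (Subtype.ext (funext fun x => ?_))
      change φ.1 ((MulAut.conjNormal γ).symm x) = φ.1 x
      refine (φ.2.2.1 γ trivial _ _ ?_).symm
      rw [MulAut.conjNormal_symm_apply]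
      group
    · intro γ _ x y hxy
      have h5 := congrArg (fun ψ : XX G z c => ψ.1.1 y) (φ.2 γ)
      change φ.1.1.1 ((MulAut.conjNormal γ).symm y) = φ.1.1.1 y at h5
      rw [← h5]
      refine congrArg φ.1.1.1 (Subtype.ext ?_)
      rw [MulAut.conjNormal_symm_apply, hxy]
      group
  have hc : Nat.card Γ = p * Nat.card G := by
    rw [← hi]
    exact Subgroup.card_eq_card_quotient_mul_card_subgroup G
  unfold Lsum
  rw [sup_top_eq, sup_top_eq, sup_top_eq, if_pos rfl, if_pos rfl, if_pos rfl, inf_top_eq,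
    inf_top_eq, inf_top_eq, Subgroup.card_top, Subgroup.card_top, hG, hI]
  rw [hb, hc]
  push_cast
  ring

end main

/-- PELL -/
theorem pell : S_PELL :=
  pell_of Pool.Agent.Y914.NV.irr Pool.Agent.Y705.NV.ppt
    (fun p _ F _ _ _ N _ _ f hf hf' => Pool.Agent.Y275.NV.wed F N f hf
      (Pool.Agent.Y705.NV.nil p F N f hf hf'))
    (Pool.Agent.Y705.NV.schur Pool.Agent.Y914.NV.irr)

end Pool.Agent.Y77.NV
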